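import Pool.Agent.H62.AX.Par
import Pool.Agent.H62.TV.Red

/-!
The class coefficient, and the mean square.
-/

set_option autoImplicit false

namespace Pool.Agent.H62.AX

open Matrix Finset Pool.Agent.H550R3.Jones Pool.Agent.W715.VC Pool.Agent.H62.VC
open Pool.Agent.Y481 (ftw ftwi fts)
open Pool.Agent.Y482.CY (Nz)
open scoped Real

variable {N : ℕ}

lemma rt_sub (N : ℕ) : ‖rt N - 1‖ ≤ π / N := by
  have h := Real.norm_exp_I_mul_ofReal_sub_one_le (x := π / N)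
  have h0 : 0 ≤ π / (N : ℝ) := by positivity
  rw [Real.norm_of_nonneg h0] at h
  have e1 : rt N = Complex.exp (Complex.I * ((π / N : ℝ) : ℂ)) := by
    unfold rt
    congr 1
    push_cast
    ring
  rw [e1]
  exact h

lemma rt_sq_sub (N : ℕ) : ‖rt N ^ 2 - 1‖ ≤ 2 * π / N := by
  have e1 : rt N ^ 2 - 1 = (rt N + 1) * (rt N - 1) := by ring
  have h1 : ‖rt N + 1‖ ≤ 2 := by
    have := norm_add_le (rt N) 1
    rw [Pool.Agent.V11115.VC.norm_rt', norm_one] at this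
    linarith
  rw [e1, norm_mul]
  have h2 := mul_le_mul h1 (rt_sub N) (norm_nonneg _) (by norm_num)
  refine h2.trans (le_of_eq ?_)
  ring

/-- the parameters -/
lemma pr_rt {K : ℕ} {e : ℝ} (he0 : 0 < e) (he1 : e ≤ 1 / 40) (hN : 0 < N)
    (hK : (K : ℝ) ≤ e ^ 2 * N / 1000) (hKN : K < N) : TV.Pr (rt N) 1 K e := by
  have hr : (0 : ℝ) < N := by exact_mod_cast hN
  have hpi := Real.pi_lt_d2
  have hpi0 := Real.pi_pos
  refine ⟨Pool.Agent.V11115.VC.norm_rt' N, fun l h0 h1 => br_ne (by omega) (by omega), norm_one, he0,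
    he1, by rw [sub_self, norm_zero]; positivity, ?_, ?_⟩
  · calc (K : ℝ) * ‖rt N ^ 2 - 1‖ ≤ (e ^ 2 * N / 1000) * (2 * π / N) :=
          mul_le_mul hK (rt_sq_sub N) (norm_nonneg _) (by positivity)
      _ = e ^ 2 * π / 500 := by field_simp; ring
      _ ≤ 3 * e ^ 2 / 400 := by
          have : 0 < e ^ 2 := by positivity
          nlinarith
  · calc (K : ℝ) * ‖rt N - 1‖ ≤ (e ^ 2 * N / 1000) * (π / N) :=
          mul_le_mul hK (rt_sub N) (norm_nonneg _) (by positivity)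
      _ = e * (e * π / 1000) := by field_simp
      _ ≤ e * (1 / 8) := by
          refine mul_le_mul_of_nonneg_left ?_ he0.le
          nlinarith
      _ = e / 8 := by ring

/-- the coefficients -/
noncomputable def Ac (N : ℕ) (w : List (ℕ × Bool)) (δ : ℕ) : ℂ :=
  (if δ = 0 then 1 else 2) * trK N (N - 1 - δ) w

/-- the class coefficient -/
theorem class_low {q M j r e K : ℕ} (hr : r.Prime) (hr2 : r ≠ 2) (hq : q = r ^ e) (he : 0 < e)
    (hM : Squarefree M) (hqM : Nat.Coprime q M) (hN : N = q * M) (hj : ¬ r ∣ j) (hj0 : 0 < j)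
    (hM0 : 0 < M) (hjq : 2 * j < q) (hK : K + 1 = M * (q - 2 * j)) (w : List Bool) :
    2 * ‖∑ d ∈ range (K + 1), TV.Bm (rt N) 1 K w d d‖ - 2 * N ≤
      ‖Cs N (Ac N (w.map lett)) (((M * j : ℕ) : ℤ) ^ 2)‖ := by
  set δ₀ := M * j with hδ₀
  have hδ0 : 0 < δ₀ := Nat.mul_pos hM0 hj0
  have hKe : K + 1 + 2 * δ₀ = N := by
    rw [hK, hN, hδ₀]
    have : q = (q - 2 * j) + 2 * j := by omega
    conv_rhs => rw [this]
    ring
  have h2 : Cs N (Ac N (w.map lett)) ((δ₀ : ℤ) ^ 2) =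
      Ac N (w.map lett) δ₀ + Ac N (w.map lett) (N - δ₀) := by
    unfold Cs
    have hcls : ∀ δ ∈ range N, (if (N : ℤ) ∣ (δ : ℤ) ^ 2 - (δ₀ : ℤ) ^ 2 then
        Ac N (w.map lett) δ else 0) = (if δ = δ₀ then Ac N (w.map lett) δ else 0) +
          (if δ = N - δ₀ then Ac N (w.map lett) δ else 0) := by
      intro δ hδ
      rw [mem_range] at hδ
      have h3 := class_eq hr hr2 hq he hM hqM hN hj hδ0 (by omega) hδ
      by_cases h4 : (N : ℤ) ∣ (δ : ℤ) ^ 2 - (δ₀ : ℤ) ^ 2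
      · rw [if_pos h4]
        rcases h3.1 h4 with h5 | h5
        · rw [if_pos h5, if_neg (by omega), add_zero]
        · rw [if_neg (by omega), if_pos h5, zero_add]
      · rw [if_neg h4]
        have h5 : ¬ (δ = δ₀ ∨ δ = N - δ₀) := fun h => h4 (h3.2 h)
        rw [if_neg (fun h => h5 (Or.inl h)), if_neg (fun h => h5 (Or.inr h)), add_zero]
    rw [sum_congr rfl hcls, sum_add_distrib, Finset.sum_ite_eq', Finset.sum_ite_eq',
      if_pos (mem_range.2 (by omega)), if_pos (mem_range.2 (by omega))]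
  obtain ⟨c, hc, hrel⟩ := trK_rel (N := N) (m := N - 1 - δ₀) (k := K + 1) (K := K) (by omega)
    (by omega) (by omega) rfl w
  have e1 : N - 1 - δ₀ - (K + 1) = δ₀ - 1 := by omega
  have e2 : N - 1 - (N - δ₀) = δ₀ - 1 := by omega
  rw [e1] at hrel
  rw [h2]
  unfold Ac
  rw [if_neg (by omega), if_neg (by omega), e2, hrel]
  set S := ∑ d ∈ range (K + 1), TV.Bm (rt N) 1 K w d d with hS
  set T := trK N (δ₀ - 1) (w.map lett) with hT
  have hTn : ‖T‖ ≤ δ₀ := by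
    have := trK_unit (N := N) (m := δ₀ - 1) (by omega) (w.map lett)
    refine this.trans (le_of_eq ?_)
    have : ((δ₀ - 1 : ℕ) : ℝ) = δ₀ - 1 := by rw [Nat.cast_sub (by omega)]; simp
    rw [this]; ring
  have e3 : 2 * (T + c * S) + 2 * T = 2 * (c * S) - (-(4 * T)) := by ring
  rw [e3]
  have h5 := norm_sub_norm_le (2 * (c * S)) (-(4 * T))
  rw [norm_neg, norm_mul, norm_mul, norm_mul, hc, one_mul, Complex.norm_ofNat,
    Complex.norm_ofNat] at h5
  have h6 : (4 : ℝ) * δ₀ ≤ 2 * N := by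
    have : 4 * δ₀ ≤ 2 * N := by omega
    exact_mod_cast this
  linarith

/-- the mean square of the traces -/
theorem trace_mean {u : ℕ → ℂ} (hu : ∀ N, ‖u N‖ = 1) (h : ∀ (N : ℕ), 2 ≤ N →
    ∀ (w : List (ℕ × Bool)) (p : ℤ), (rep3 N (w ++ fts p)).trace = N * u N ^ p *
      ∑ δ ∈ range N, (if δ = 0 then 1 else 2) * trK N (N - 1 - δ) w * ze N ^ (p * (δ : ℤ) ^ 2))
    (hN : 2 ≤ N) (w : List (ℕ × Bool)) (a s : ℤ) :
    (N : ℝ) ^ 3 * ‖Cs N (Ac N w) s‖ ^ 2 ≤ ∑ p ∈ range N, ‖(rep3 N (w ++ fts (a + p))).trace‖ ^ 2 := by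
  have h1 : ∀ p : ℤ, ‖(rep3 N (w ++ fts p)).trace‖ = N * ‖Fs N (Ac N w) p‖ := by
    intro p
    rw [h N hN w p, norm_mul, norm_mul, Complex.norm_natCast, norm_zpow, hu, _root_.one_zpow, mul_one]
    rfl
  have h2 : ∀ p ∈ range N, ‖(rep3 N (w ++ fts (a + (p : ℤ)))).trace‖ ^ 2 =
      (N : ℝ) ^ 2 * ‖Fs N (Ac N w) (a + p)‖ ^ 2 := by
    intro p _
    rw [h1]; ring
  rw [sum_congr rfl h2, ← mul_sum]
  have h3 := Fs_mean (N := N) (by omega) (Ac N w) a s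
  have h4 : (0 : ℝ) ≤ (N : ℝ) ^ 2 := by positivity
  calc (N : ℝ) ^ 3 * ‖Cs N (Ac N w) s‖ ^ 2 = (N : ℝ) ^ 2 * (N * ‖Cs N (Ac N w) s‖ ^ 2) := by ring
    _ ≤ _ := mul_le_mul_of_nonneg_left h3 h4

end Pool.Agent.H62.AX
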