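import Pool.Agent.H62.AX.Rad
import Pool.Agent.H62.TV.Pt3

/-!
The traces on the spaces of highest weight vectors.
-/

set_option autoImplicit false

namespace Pool.Agent.H62.AX

open Matrix Finset Pool.Agent.H550R3.Jones Pool.Agent.W715.VC Pool.Agent.H62.VC
open Pool.Agent.V11115.VC (FF1 FF1_pos qb_FF Pos exists_coord)
open Pool.Agent.Y482.CY (sb Nz)

variable {N : ℕ}

/-! ### the operators agree -/

lemma brf_rt (n : ℕ) : brf (rt N) n = (2 * Complex.I) ^ n * ((FF1 N n : ℝ) : ℂ) := by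
  unfold brf FF1
  induction n with
  | zero => simp
  | succ n ih =>
    rw [prod_range_succ, prod_range_succ, ih, br_rt]
    push_cast
    ring

lemma qc_eq {d e : ℕ} (hd : d < N) : qc N d e = TV.qb (rt N) d e := by
  unfold qc TV.qb
  rcases Nat.lt_or_ge d e with h | h
  · rw [Pool.Agent.V11115.VC.qb_gt h, if_neg (by omega)]; simp
  · rw [if_pos h, qb_FF hd h]
    unfold sb
    rw [brf_rt, brf_rt, brf_rt]
    have h1 : ((FF1 N e : ℝ) : ℂ) ≠ 0 := by exact_mod_cast (FF1_pos (N := N) (n := e) (by omega)).ne'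
    have h2 : ((FF1 N (d - e) : ℝ) : ℂ) ≠ 0 := by
      exact_mod_cast (FF1_pos (N := N) (n := d - e) (by omega)).ne'
    have h3 : (2 * Complex.I : ℂ) ≠ 0 := by simp
    have h4 : (2 * Complex.I : ℂ) ^ d = (2 * Complex.I) ^ e * (2 * Complex.I) ^ (d - e) := by
      rw [← pow_add]; congr 1; omega
    rw [h4]
    push_cast
    field_simp

lemma TP_eq {K : ℕ} (hK : K < N) {d : ℕ} (hd : d ≤ K) (y : ℕ → ℂ) :
    VC.TP N K y d = TV.TP (rt N) K y d := by
  unfold VC.TP TV.TP
  exact sum_congr rfl fun e _ => by rw [qc_eq (by omega)]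

lemma TQ_eq {K : ℕ} (hK : K < N) {d : ℕ} (y : ℕ → ℂ) :
    VC.TQ N K y d = TV.TQ (rt N) K y d := by
  unfold VC.TQ TV.TQ
  exact sum_congr rfl fun e _ => by rw [qc_eq (by omega)]

lemma Dt_one (K : ℕ) (y : ℕ → ℂ) : TV.Dt 1 K y = y := by
  funext d
  unfold TV.Dt
  rw [one_pow, one_mul]

lemma TW_eq {K : ℕ} (hK : K < N) : ∀ (w : List Bool) (y : ℕ → ℂ) (d : ℕ), d ≤ K →
    VC.TW N K (w.map lett) y d = TV.TW (rt N) 1 K w y d := by
  intro w
  induction w with
  | nil => intro y d _; rfl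
  | cons l w ih =>
    intro y d hd
    have h1 : TV.TW (rt N) 1 K (l :: w) y = TV.Xl (rt N) K l (TV.TW (rt N) 1 K w y) := by
      change TV.Xl (rt N) K l (TV.Dt 1 K (TV.TW (rt N) 1 K w y)) = _
      rw [Dt_one]
    rw [h1]
    cases l
    · have h2 : VC.TW N K ((false :: w).map lett) y = VC.TQ N K (VC.TW N K (w.map lett) y) := by
        simp [VC.TW, lett]
      have h3 := TQ_congr (N := N) (K := K) (y := VC.TW N K (w.map lett) y)
        (y' := TV.TW (rt N) 1 K w y) (c := 1) (fun e he => by rw [one_mul]; exact ih y e he) d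
      rw [h2, h3, one_mul, TQ_eq hK]
      rfl
    · have h2 : VC.TW N K ((true :: w).map lett) y = VC.TP N K (VC.TW N K (w.map lett) y) := by
        simp [VC.TW, lett]
      have h3 := TP_congr (N := N) (K := K) (y := VC.TW N K (w.map lett) y)
        (y' := TV.TW (rt N) 1 K w y) (c := 1) (fun e he => by rw [one_mul]; exact ih y e he) d
      rw [h2, h3, one_mul, TP_eq hK hd]
      rfl

/-! ### the quotient by the radical -/

/-- the coordinates as a linear map -/
noncomputable def YL (N m K : ℕ) : VK N m →ₗ[ℂ] (Fin (K + 1) → ℂ) where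
  toFun x := fun d => Yc N m x.1 d
  map_add' x y := by
    funext d
    simp only [Pi.add_apply, Submodule.coe_add]
    unfold Yc
    rw [LL_add']; ring
  map_smul' r x := by
    funext d
    simp only [Pi.smul_apply, Submodule.coe_smul, smul_eq_mul, RingHom.id_apply]
    unfold Yc
    rw [LL_smul']; ring

lemma YL_apply (m K : ℕ) (x : VK N m) (d : Fin (K + 1)) : YL N m K x d = Yc N m x.1 d := rfl

lemma YL_surj {m K : ℕ} (hm : m < N) (hK : N + K = 2 * m + 1) :
    Function.Surjective (YL N m K) := by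
  intro e
  obtain ⟨z, hz, hzc⟩ := exists_coord hm (fun i => ((-(rt N ^ m)) ^ (m - i))⁻¹ *
    (if h : m - i < K + 1 then e ⟨m - i, h⟩ else 0))
  refine ⟨⟨z, hz⟩, ?_⟩
  funext d
  rw [YL_apply]
  unfold Yc
  have hd := d.2
  rw [hzc _ (by omega)]
  have h1 : m - (m - (d : ℕ)) = d := by omega
  rw [← mul_assoc, h1, mul_inv_cancel₀ (pow_ne_zero _ (neg_ne_zero.2 (pow_ne_zero _ (rt_ne N)))),
    one_mul, dif_pos hd]

/-- the matrix of a word on the quotient -/
noncomputable def QM (N K : ℕ) (w : List Bool) : Matrix (Fin (K + 1)) (Fin (K + 1)) ℂ :=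
  fun d e => TV.Bm (rt N) 1 K w d e

lemma YL_word {m K : ℕ} (hm : m < N) (hK : N + K = 2 * m + 1) (w : List Bool) :
    ∃ c : ℂ, ‖c‖ = 1 ∧ YL N m K ∘ₗ TK (good_rep3 (w.map lett)) =
      (c • Matrix.mulVecLin (QM N K w)) ∘ₗ YL N m K := by
  have hKN : K < N := by omega
  have hw : ∀ l ∈ w.map lett, Pos l := by
    intro l hl
    rw [List.mem_map] at hl
    obtain ⟨b, _, rfl⟩ := hl
    exact lett_pos b
  -- the scalar is the same for all vectors
  have key : ∀ (w : List Bool), ∃ c : ℂ, ‖c‖ = 1 ∧ ∀ z : I3 N → ℂ, InK m z → ∀ d, d ≤ K →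
      Yc N m (rep3 N (w.map lett) *ᵥ z) d = c * VC.TW N K (w.map lett) (Yc N m z) d := by
    intro w
    induction w with
    | nil =>
      refine ⟨1, norm_one, fun z hz d hd => ?_⟩
      rw [List.map_nil, rep3_nil, one_mulVec, one_mul]
      rfl
    | cons l w ih =>
      obtain ⟨c, hc, h⟩ := ih
      cases l
      · refine ⟨(-(rt N)⁻¹ * (-1) ^ m * rt N ^ (-((m : ℤ) * (m + 1)))) * c, ?_, fun z hz d hd => ?_⟩
        · rw [norm_mul, norm_mul, norm_mul, norm_neg, norm_inv, Pool.Agent.V11115.VC.norm_rt', norm_rt_zpow, norm_pow,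
            norm_neg, norm_one, one_pow, hc]
          norm_num
        · have hx : InK m (rep3 N (w.map lett) *ᵥ z) := (good_rep3 _).InK hz
          have e1 : (false :: w).map lett = (0, false) :: w.map lett := rfl
          rw [e1, rep3_cons, ← Matrix.mulVec_mulVec, Pool.Agent.V11115.VC.g3_Q12, Yc_Q hm hK hx hd,
            TQ_congr (h z hz) d]
          have : VC.TW N K ((0, false) :: w.map lett) (Yc N m z) =
              VC.TQ N K (VC.TW N K (w.map lett) (Yc N m z)) := by simp [VC.TW]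
          rw [this]; ring
      · refine ⟨(-rt N * (-1) ^ m * rt N ^ ((m : ℤ) * (m + 1))) * c, ?_, fun z hz d hd => ?_⟩
        · rw [norm_mul, norm_mul, norm_mul, norm_neg, Pool.Agent.V11115.VC.norm_rt', norm_rt_zpow, norm_pow, norm_neg,
            norm_one, one_pow, hc]
          norm_num
        · have hx : InK m (rep3 N (w.map lett) *ᵥ z) := (good_rep3 _).InK hz
          have e1 : (true :: w).map lett = (1, true) :: w.map lett := rfl
          rw [e1, rep3_cons, ← Matrix.mulVec_mulVec, Pool.Agent.V11115.VC.g3_P23, Yc_P hm hK hx hd,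
            TP_congr (h z hz) d]
          have : VC.TW N K ((1, true) :: w.map lett) (Yc N m z) =
              VC.TP N K (VC.TW N K (w.map lett) (Yc N m z)) := by simp [VC.TW]
          rw [this]; ring
  obtain ⟨c, hc, h⟩ := key w
  refine ⟨c, hc, ?_⟩
  apply LinearMap.ext
  intro x
  funext d
  have hd := d.2
  have h1 : (YL N m K ∘ₗ TK (good_rep3 (w.map lett))) x d =
      Yc N m (rep3 N (w.map lett) *ᵥ x.1) d := rfl
  rw [h1, h x.1 x.2 d (by omega), TW_eq hKN w _ d (by omega), TV.TW_Bm _ _ _ (by omega)]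
  have h2 : ((c • Matrix.mulVecLin (QM N K w)) ∘ₗ YL N m K) x d =
      c * ∑ e : Fin (K + 1), QM N K w d e * YL N m K x e := rfl
  rw [h2]
  congr 1
  unfold TV.mulv
  rw [Finset.sum_range]
  rfl

lemma ker_YL {m k K : ℕ} (hm : m < N) (hk : N + k = 2 * m + 2) (hkm : k ≤ m) (hK : k = K + 1) :
    ∃ φ : VK N (m - k) →ₗ[ℂ] LinearMap.ker (YL N m K), Function.Bijective φ ∧
      ∀ x, ((φ x : VK N m) : I3 N → ℂ) = Ft N ^ k *ᵥ x.1 := by
  have hN : 0 < N := by omega
  have hF : ∀ x : VK N (m - k), InK m (Ft N ^ k *ᵥ x.1) := by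
    intro x
    have hx := x.2
    have h1 := Ft_pow_InW hN hx.1 k
    have e1 : m - k + k = m := by omega
    rw [e1] at h1
    refine ⟨h1, ?_⟩
    obtain ⟨i, rfl⟩ : ∃ i, k = i + 1 := ⟨k - 1, by omega⟩
    rw [Et_Ft_pow hN hx.1 i, hx.2, mulVec_zero, zero_add]
    have g : 3 * (N : ℤ) - 3 - 2 * (m - (i + 1) : ℕ) - i = 2 * N := by
      have : ((m - (i + 1) : ℕ) : ℤ) = m - (i + 1) := by omega
      rw [this]; omega
    have g2 : br (rt N) (2 * (N : ℤ)) = 0 := by
      unfold br
      have e1 := rt_2N hN 0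
      rw [add_zero, zpow_zero] at e1
      rw [_root_.zpow_neg, e1]; simp
    rw [g, g2, mul_zero, zero_smul]
  -- the image of `F^k`
  set ψ : VK N (m - k) →ₗ[ℂ] VK N m :=
    { toFun := fun x => ⟨Ft N ^ k *ᵥ x.1, hF x⟩
      map_add' := fun x y => Subtype.ext (by
        change Ft N ^ k *ᵥ (x.1 + y.1) = _
        rw [Matrix.mulVec_add]; rfl)
      map_smul' := fun r x => Subtype.ext (by
        change Ft N ^ k *ᵥ (r • x.1) = _
        rw [Matrix.mulVec_smul]; rfl) } with hψ
  have hψa : ∀ x, (ψ x : I3 N → ℂ) = Ft N ^ k *ᵥ x.1 := fun x => rfl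
  have hle : LinearMap.ker (YL N m K) ≤ LinearMap.range ψ := by
    intro y hy
    have h1 : ∀ d, d ≤ K → Yc N m y.1 d = 0 := by
      intro d hd
      have := congrFun (LinearMap.mem_ker.1 hy) ⟨d, by omega⟩
      exact this
    obtain ⟨z, hz, hzy⟩ := radical hm hk (by omega) hkm y.2 (orth_of_Yc hm (by omega) y.2 h1)
    exact ⟨⟨z, hz⟩, Subtype.ext hzy⟩
  have hdim : Module.finrank ℂ (LinearMap.ker (YL N m K)) = m - k + 1 := by
    have h1 := LinearMap.finrank_range_add_finrank_ker (YL N m K)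
    rw [LinearMap.range_eq_top.2 (YL_surj hm (by omega)), finrank_top, finrank_VK hm,
      Module.finrank_fin_fun] at h1
    omega
  have hinj : Function.Injective ψ := by
    rw [← LinearMap.ker_eq_bot, LinearMap.ker_eq_bot']
    intro x hx
    have h1 : Ft N ^ k *ᵥ x.1 = 0 := by rw [← hψa, hx]; rfl
    exact Subtype.ext (Ft_pow_inj hN k (by omega) x.2.1 h1)
  have heq : LinearMap.ker (YL N m K) = LinearMap.range ψ := by
    refine Submodule.eq_of_le_of_finrank_le hle ?_
    have h1 := LinearMap.finrank_range_of_inj hinj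
    rw [h1, finrank_VK (by omega), hdim]
  refine ⟨ψ.codRestrict (LinearMap.ker (YL N m K)) (fun x => by rw [heq]; exact ⟨x, rfl⟩),
    ⟨?_, ?_⟩, fun x => rfl⟩
  · intro x y hxy
    exact hinj (congrArg Subtype.val hxy)
  · intro y
    have h1 : y.1 ∈ LinearMap.range ψ := by rw [← heq]; exact y.2
    obtain ⟨x, hx⟩ := h1
    exact ⟨x, Subtype.ext hx⟩

/-- **the trace relation** -/
theorem trK_rel {m k K : ℕ} (hm : m < N) (hk : N + k = 2 * m + 2) (hkm : k ≤ m) (hK : k = K + 1)
    (w : List Bool) : ∃ c : ℂ, ‖c‖ = 1 ∧ trK N m (w.map lett) = trK N (m - k) (w.map lett) +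
      c * ∑ d ∈ range (K + 1), TV.Bm (rt N) 1 K w d d := by
  obtain ⟨c, hc, h1⟩ := YL_word hm (K := K) (by omega) w
  obtain ⟨φ, hφ, hφ2⟩ := ker_YL hm hk hkm hK
  refine ⟨c, hc, ?_⟩
  have hT : ∀ x ∈ LinearMap.ker (YL N m K), TK (good_rep3 (w.map lett)) x ∈
      LinearMap.ker (YL N m K) := by
    intro x hx
    rw [LinearMap.mem_ker] at hx ⊢
    have := LinearMap.congr_fun h1 x
    simp only [LinearMap.comp_apply] at this
    rw [this, hx, map_zero]
  have h2 := trace_ker (TK (good_rep3 (w.map lett))) (c • Matrix.mulVecLin (QM N K w)) (YL N m K)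
    (YL_surj hm (by omega)) h1 hT
  have h3 := trace_iso (V := VK N (m - k)) (W := LinearMap.ker (YL N m K))
    (TK (m := m - k) (good_rep3 (N := N) (w.map lett)))
    ((TK (good_rep3 (w.map lett))).restrict hT) φ hφ (by
      apply LinearMap.ext
      intro x
      apply Subtype.ext
      apply Subtype.ext
      have e1 : ((φ (TK (good_rep3 (w.map lett)) x) : VK N m) : I3 N → ℂ) =
          Ft N ^ k *ᵥ (rep3 N (w.map lett) *ᵥ x.1) := by rw [hφ2]; rfl
      have e2 : ((((TK (good_rep3 (w.map lett))).restrict hT (φ x) :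
          LinearMap.ker (YL N m K)) : VK N m) : I3 N → ℂ) =
          rep3 N (w.map lett) *ᵥ (Ft N ^ k *ᵥ x.1) := by
        have : ((((TK (good_rep3 (w.map lett))).restrict hT (φ x) :
          LinearMap.ker (YL N m K)) : VK N m) : I3 N → ℂ) = rep3 N (w.map lett) *ᵥ
          ((φ x : VK N m) : I3 N → ℂ) := rfl
        rw [this, hφ2]
      simp only [LinearMap.comp_apply]
      rw [e1, e2, Matrix.mulVec_mulVec, Matrix.mulVec_mulVec]
      congr 1
      exact ((Commute.pow_right (show Commute (rep3 N (w.map lett)) (Ft N) from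
        (good_rep3 _).f) k).eq).symm)
  unfold trK
  rw [h2, ← h3]
  congr 1
  rw [map_smul, smul_eq_mul]
  congr 1
  rw [← Matrix.toLin'_apply', Matrix.trace_toLin'_eq, Matrix.trace, Finset.sum_range]
  rfl

end Pool.Agent.H62.AX
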