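import Pool.Agent.H62.AX.Low
import Pool.Agent.H62.VC.Spec

/-!
Conjugation, and the mean square for all pseudo-Anosov braids.
-/

set_option autoImplicit false

namespace Pool.Agent.H62.AX

open Matrix Finset Pool.Agent.H550R3.Jones Pool.Agent.W715.VC Pool.Agent.H62.VC
open Pool.Agent.Y481 (ftw ftwi fts)
open Pool.Agent.V11115.VC (ev ev_cons ev_nil lt mat uA uB ev_rep3 braid_AB)
open scoped Real

variable {N : ℕ}

lemma ev_pow {G : Type} [Group G] (a b : G) (w : List (ℕ × Bool)) (n : ℕ) :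
    ev a b (List.replicate n w).flatten = ev a b w ^ n := by
  induction n with
  | zero => simp [ev_nil]
  | succ n ih => rw [List.replicate_succ, List.flatten_cons, ev_append, ih, pow_succ']

lemma ev_fts {G : Type} [Group G] {a b : G} (h : a * b * a = b * a * b) (p : ℤ) :
    ev a b (fts p) = (a * b * a) ^ (2 * p) := by
  have h1 : ev a b ftw = (a * b * a) ^ (2 : ℤ) := by
    have : ev a b ftw = (a * b * a) * (b * a * b) := by
      simp [ev, lt, ftw, mul_assoc]
    rw [this, ← h, zpow_ofNat, sq]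
  have h2 : ev a b ftwi = (a * b * a) ^ (-2 : ℤ) := by
    have h3 : ev a b ftwi = ((b * a * b) * (a * b * a))⁻¹ := by
      simp [ev, lt, ftwi, mul_assoc]
    rw [h3, ← h, _root_.zpow_neg, zpow_ofNat, sq]
  unfold fts
  rw [ev_pow]
  by_cases hp : 0 ≤ p
  · rw [if_pos hp, h1, ← zpow_natCast, ← _root_.zpow_mul, Int.natAbs_of_nonneg hp]
  · rw [if_neg hp, h2, ← zpow_natCast, ← _root_.zpow_mul]
    congr 1
    omega

/-- conjugation does not change the traces -/
theorem trace_conj {u w : List (ℕ × Bool)} (hu : ∀ l ∈ u, l.1 < 2) (hw : ∀ l ∈ w, l.1 < 2) {i : ℤ}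
    (h : ∀ (G : Type) [Group G] (a b : G), a * b * a = b * a * b → ∃ g : G,
      ev a b u = g * ((a * b * a) ^ (2 * i) * ev a b w) * g⁻¹) (n : ℕ) (p : ℤ) :
    (rep3 N (wpow u n ++ fts p)).trace = (rep3 N (wpow w n ++ fts (i * n + p))).trace := by
  set H : Subgroup (M3 N)ˣ := Subgroup.closure {uA N, uB N} with hH
  have hA : uA N ∈ H := Subgroup.subset_closure (by simp)
  have hB : uB N ∈ H := Subgroup.subset_closure (by simp)
  have hbr : (⟨uA N, hA⟩ : H) * ⟨uB N, hB⟩ * ⟨uA N, hA⟩ = ⟨uB N, hB⟩ * ⟨uA N, hA⟩ * ⟨uB N, hB⟩ :=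
    Subtype.ext braid_AB
  obtain ⟨⟨g, hg⟩, hev⟩ := h H ⟨uA N, hA⟩ ⟨uB N, hB⟩ hbr
  have hcoe : ∀ v : List (ℕ × Bool), ((ev (⟨uA N, hA⟩ : H) ⟨uB N, hB⟩ v : H) : (M3 N)ˣ) =
      ev (uA N) (uB N) v := by
    intro v
    induction v with
    | nil => rw [ev_nil, ev_nil]; rfl
    | cons l v ih =>
      rw [ev_cons, ev_cons, Subgroup.coe_mul, ih]
      congr 1
      unfold lt
      split_ifs <;> simp
  have hev2 : ev (uA N) (uB N) u = g * ((uD N) ^ (2 * i) * ev (uA N) (uB N) w) * g⁻¹ := by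
    have := congrArg (Subtype.val) hev
    rw [hcoe] at this
    rw [this]
    simp only [Subgroup.coe_mul, Subgroup.coe_zpow, InvMemClass.coe_inv, hcoe]
    rfl
  -- the full twists commute with `g`
  have hcen : ∀ k : ℤ, ∀ x ∈ H, x * (uD N) ^ (2 * k) = (uD N) ^ (2 * k) * x := by
    intro k x hx
    have hle : H ≤ Subgroup.centralizer {(uD N) ^ (2 * k)} := by
      rw [hH, Subgroup.closure_le]
      intro y hy
      simp only [Set.mem_insert_iff, Set.mem_singleton_iff] at hy
      rw [SetLike.mem_coe, Subgroup.mem_centralizer_singleton_iff]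
      rcases hy with rfl | rfl
      · have := D_even' (braid_AB (N := N)) k (uA N) ⟨[(0, true)], by simp [ev, lt]⟩
        first | exact this | exact this.symm
      · have := D_even' (braid_AB (N := N)) k (uB N) ⟨[(1, true)], by simp [ev, lt]⟩
        first | exact this | exact this.symm
    have h1 := Subgroup.mem_centralizer_singleton_iff.1 (hle hx)
    first | exact h1 | exact h1.symm
  have hwp : ∀ v : List (ℕ × Bool), (∀ l ∈ v, l.1 < 2) → ∀ l ∈ wpow v n, l.1 < 2 := by
    intro v hv l hl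
    unfold wpow at hl
    rw [List.mem_flatten] at hl
    obtain ⟨v', hv', hl'⟩ := hl
    rw [List.eq_of_mem_replicate hv'] at hl'
    exact hv l hl'
  have hall : ∀ (v : List (ℕ × Bool)) (k : ℤ), (∀ l ∈ v, l.1 < 2) →
      rep3 N (wpow v n ++ fts k) =
        ((ev (uA N) (uB N) v ^ n * (uD N) ^ (2 * k) : (M3 N)ˣ) : M3 N) := by
    intro v k hv
    have hm : ∀ l ∈ wpow v n ++ fts k, l.1 < 2 := by
      intro l hl
      rcases List.mem_append.1 hl with h1 | h1
      · exact hwp v hv l h1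
      · exact Pool.Agent.Y68.V481.TRP.fts_lt k l h1
    rw [← ev_rep3 hm, ev_append, ev_fts braid_AB]
    unfold wpow
    rw [ev_pow]
    rfl
  rw [hall u p hu, hall w _ hw]
  set W := ev (uA N) (uB N) w with hW
  have hcw : Commute ((uD N) ^ (2 * i)) W := by
    have := D_even' (braid_AB (N := N)) i W ⟨w, hW⟩
    exact this.symm
  have e1 : ev (uA N) (uB N) u ^ n * (uD N) ^ (2 * p) =
      g * (W ^ n * (uD N) ^ (2 * (i * n + p))) * g⁻¹ := by
    rw [hev2, conj_pow, hcw.mul_pow]
    have h1 := hcen p g hg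
    have h2 : g⁻¹ * (uD N) ^ (2 * p) = (uD N) ^ (2 * p) * g⁻¹ := hcen p g⁻¹ (H.inv_mem hg)
    have h3 : ((uD N) ^ (2 * i)) ^ n * W ^ n * (uD N) ^ (2 * p) =
        W ^ n * (uD N) ^ (2 * (i * n + p)) := by
      have h4 : (uD N) ^ (2 * (i * n + p)) = ((uD N) ^ (2 * i)) ^ n * (uD N) ^ (2 * p) := by
        rw [← zpow_natCast, ← _root_.zpow_mul, ← _root_.zpow_add]
        congr 1
        ring
      have h5 : ((uD N) ^ (2 * i)) ^ n * W ^ n = W ^ n * ((uD N) ^ (2 * i)) ^ n :=
        (hcw.pow_pow n n).eq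
      rw [h4, h5, mul_assoc]
    calc g * (((uD N) ^ (2 * i)) ^ n * W ^ n) * g⁻¹ * (uD N) ^ (2 * p) =
        g * (((uD N) ^ (2 * i)) ^ n * W ^ n) * (g⁻¹ * (uD N) ^ (2 * p)) := by group
      _ = g * (((uD N) ^ (2 * i)) ^ n * W ^ n * (uD N) ^ (2 * p)) * g⁻¹ := by rw [h2]; group
      _ = _ := by rw [h3]
  rw [e1, Units.val_mul, Matrix.trace_mul_comm, ← Units.val_mul, ← mul_assoc, inv_mul_cancel,
    one_mul]

/-- powers of alternating words -/
lemma alt_pow (l : List (ℕ × ℕ)) (n : ℕ) : (TV.alt (List.replicate n l).flatten).map lett =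
    wpow ((TV.alt l).map lett) n := by
  have happ : ∀ l l' : List (ℕ × ℕ), TV.alt (l ++ l') = TV.alt l ++ TV.alt l' := by
    intro l l'
    induction l with
    | nil => rfl
    | cons a l ih =>
      obtain ⟨p, q⟩ := a
      simp [TV.alt, ih]
  unfold wpow
  induction n with
  | zero => rfl
  | succ k ih =>
    rw [List.replicate_succ, List.flatten_cons, List.replicate_succ, List.flatten_cons, ← ih,
      happ, List.map_append]

/-- **the mean square for the twist families** -/
theorem mean_conj {A : ℕ} {l : List (ℕ × ℕ)} (hl : TV.Ok A l) (hne : l ≠ [])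
    {u : List (ℕ × Bool)} (hu : ∀ l ∈ u, l.1 < 2) {i : ℤ}
    (h : ∀ (G : Type) [Group G] (a b : G), a * b * a = b * a * b → ∃ g : G,
      ev a b u = g * ((a * b * a) ^ (2 * i) * ev a b ((TV.alt l).map lett)) * g⁻¹)
    {q M r e : ℕ} (hLev : Lev N (10 ^ 57 * ((A : ℝ) + 1) ^ 12) q M r e) {n : ℕ} (hn : 1 ≤ n)
    (a : ℤ) :
    N * Real.exp ((n * l.length) / (4 * 10 ^ 25 * ((A : ℝ) + 1) ^ 6) * N) ^ 2 ≤
      ∑ p ∈ range N, ‖(rep3 N (wpow u n ++ fts (a + p))).trace‖ ^ 2 := by
  have hA : 1 ≤ A := by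
    cases l with
    | nil => exact absurd rfl hne
    | cons a l =>
      have := hl a List.mem_cons_self
      omega
  have hlen : (List.replicate n l).flatten.length = n * l.length := by
    simp [List.length_flatten]
  have hl1 : 1 ≤ l.length := List.length_pos_iff.2 hne
  have hne' : (List.replicate n l).flatten ≠ [] := by
    intro h
    have h4 := congrArg List.length h
    rw [hlen, List.length_nil] at h4
    have := Nat.mul_pos hn hl1
    omega
  have hok : TV.Ok A (List.replicate n l).flatten := by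
    intro a ha
    rw [List.mem_flatten] at ha
    obtain ⟨l', hl', ha'⟩ := ha
    rw [List.eq_of_mem_replicate hl'] at ha'
    exact hl a ha'
  have hw : ∀ x ∈ (TV.alt l).map lett, x.1 < 2 := by
    intro x hx
    rw [List.mem_map] at hx
    obtain ⟨b, _, rfl⟩ := hx
    unfold lett
    split_ifs <;> simp
  have h1 := mean_low hA hok hne' hLev (i * n + a)
  rw [hlen] at h1
  push_cast at h1
  refine h1.trans (le_of_eq ?_)
  refine sum_congr rfl fun p _ => ?_
  rw [trace_conj hu hw h n (a + p), alt_pow, add_assoc]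

end Pool.Agent.H62.AX
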