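import Pool.Agent.H62.AX.Conj

/-!
The braids which are not pseudo-Anosov: polynomial bounds.
-/

set_option autoImplicit false

namespace Pool.Agent.H62.AX

open Matrix Finset Pool.Agent.H550R3.Jones Pool.Agent.W715.VC Pool.Agent.H62.VC
open Pool.Agent.Y481 (ftw ftwi fts)
open Pool.Agent.V11115.VC (ev ev_cons ev_nil lt mat uA uB ev_rep3 braid_AB Pos)
open Pool.Agent.Y482.CY (Nz)
open scoped Real

variable {N : ℕ}

/-! ### triangular matrices -/

lemma xl_diag {K : ℕ} (hK : K < N) (b : Bool) {d : ℕ} (hd : d ≤ K) :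
    ‖TV.xl (rt N) K b d d‖ = 1 := by
  have hnz : Nz (rt N) K := fun l h0 h1 => br_ne (by omega) (by omega)
  unfold TV.xl
  split_ifs
  · rw [norm_mul, norm_rt_zpow, TV.qb_self (TV.Nz_mono hnz hd), norm_one, mul_one]
  · rw [norm_mul, norm_rt_zpow, TV.qb_self (TV.Nz_mono hnz (Nat.sub_le _ _)), norm_one, mul_one]

lemma Bm_true {K : ℕ} (hK : K < N) (k : ℕ) :
    (∀ d e, d ≤ K → e ≤ K → d < e → TV.Bm (rt N) 1 K (List.replicate k true) d e = 0) ∧
    ∀ d, d ≤ K → ‖TV.Bm (rt N) 1 K (List.replicate k true) d d‖ = 1 := by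
  induction k with
  | zero =>
    refine ⟨fun d e _ _ h => ?_, fun d _ => ?_⟩
    · simp [TV.Bm, h.ne]
    · simp [TV.Bm]
  | succ k ih =>
    have hx : ∀ d f, d < f → TV.xl (rt N) K true d f = 0 := by
      intro d f h
      unfold TV.xl
      rw [if_pos rfl, TV.qb_gt h, mul_zero]
    refine ⟨fun d e hd he h => ?_, fun d hd => ?_⟩
    · rw [List.replicate_succ, TV.Bm]
      refine sum_eq_zero fun f hf => ?_
      rw [mem_range] at hf
      rcases Nat.lt_or_ge d f with h1 | h1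
      · rw [hx d f h1, zero_mul]
      · rw [ih.1 f e (by omega) he (by omega), mul_zero, mul_zero]
    · rw [List.replicate_succ, TV.Bm, sum_eq_single d]
      · rw [norm_mul, one_pow, one_mul, ih.2 d hd, xl_diag hK true hd, mul_one]
      · intro f hf hfd
        rw [mem_range] at hf
        rcases Nat.lt_or_ge d f with h1 | h1
        · rw [hx d f h1, zero_mul]
        · rw [ih.1 f d (by omega) hd (by omega), mul_zero, mul_zero]
      · intro h
        exact absurd (mem_range.2 (by omega)) h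

lemma Bm_false {K : ℕ} (hK : K < N) (k : ℕ) :
    (∀ d e, d ≤ K → e ≤ K → e < d → TV.Bm (rt N) 1 K (List.replicate k false) d e = 0) ∧
    ∀ d, d ≤ K → ‖TV.Bm (rt N) 1 K (List.replicate k false) d d‖ = 1 := by
  induction k with
  | zero =>
    refine ⟨fun d e _ _ h => ?_, fun d _ => ?_⟩
    · simp [TV.Bm, h.ne']
    · simp [TV.Bm]
  | succ k ih =>
    have hx : ∀ d f, d ≤ K → f < d → TV.xl (rt N) K false d f = 0 := by
      intro d f hd h
      unfold TV.xl
      rw [if_neg (by simp), TV.qb_gt (by omega), mul_zero]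
    refine ⟨fun d e hd he h => ?_, fun d hd => ?_⟩
    · rw [List.replicate_succ, TV.Bm]
      refine sum_eq_zero fun f hf => ?_
      rw [mem_range] at hf
      rcases Nat.lt_or_ge f d with h1 | h1
      · rw [hx d f hd h1, zero_mul]
      · rw [ih.1 f e (by omega) he (by omega), mul_zero, mul_zero]
    · rw [List.replicate_succ, TV.Bm, sum_eq_single d]
      · rw [norm_mul, one_pow, one_mul, ih.2 d hd, xl_diag hK false hd, mul_one]
      · intro f hf hfd
        rw [mem_range] at hf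
        rcases Nat.lt_or_ge f d with h1 | h1
        · rw [hx d f hd h1, zero_mul]
        · rw [ih.1 f d (by omega) hd (by omega), mul_zero, mul_zero]
      · intro h
        exact absurd (mem_range.2 (by omega)) h

lemma Bm_sum {K : ℕ} (hK : K < N) (k : ℕ) (b : Bool) :
    ‖∑ d ∈ range (K + 1), TV.Bm (rt N) 1 K (List.replicate k b) d d‖ ≤ K + 1 := by
  refine (_root_.norm_sum_le _ _).trans ?_
  have h1 : ∀ d ∈ range (K + 1), ‖TV.Bm (rt N) 1 K (List.replicate k b) d d‖ ≤ 1 := by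
    intro d hd
    rw [mem_range] at hd
    cases b
    · exact ((Bm_false hK k).2 d (by omega)).le
    · exact ((Bm_true hK k).2 d (by omega)).le
  refine (sum_le_sum h1).trans ?_
  simp

/-! ### the top space -/

lemma trK_top (hN : 0 < N) (w : List Bool) : ∃ c : ℂ, ‖c‖ = 1 ∧ trK N (N - 1) (w.map lett) =
    c * ∑ d ∈ range (N - 1 + 1), TV.Bm (rt N) 1 (N - 1) w d d := by
  obtain ⟨c, hc, h1⟩ := YL_word (N := N) (m := N - 1) (K := N - 1) (by omega) (by omega) w
  refine ⟨c, hc, ?_⟩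
  have hs := YL_surj (N := N) (m := N - 1) (K := N - 1) (by omega) (by omega)
  have hinj : Function.Injective (YL N (N - 1) (N - 1)) := by
    refine (LinearMap.injective_iff_surjective_of_finrank_eq_finrank ?_).2 hs
    rw [finrank_VK (by omega), Module.finrank_fin_fun]
  have h3 := trace_iso (V := VK N (N - 1)) (W := Fin (N - 1 + 1) → ℂ)
    (TK (m := N - 1) (good_rep3 (N := N) (w.map lett))) (c • Matrix.mulVecLin (QM N (N - 1) w))
    (YL N (N - 1) (N - 1)) ⟨hinj, hs⟩ h1
  unfold trK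
  rw [h3, map_smul, smul_eq_mul]
  congr 1
  rw [← Matrix.toLin'_apply', Matrix.trace_toLin'_eq, Matrix.trace, Finset.sum_range]
  rfl

/-- words with one letter -/
lemma trK_single {m : ℕ} (hm : m < N) (k : ℕ) (b : Bool) :
    ‖trK N m ((List.replicate k b).map lett)‖ ≤ m + 1 := by
  rcases Nat.lt_or_ge N (2 * m + 2) with h | h
  · rcases Nat.lt_or_ge (m + 1) N with h2 | h2
    · obtain ⟨K, hK⟩ : ∃ K, N + (K + 1) = 2 * m + 2 := ⟨2 * m + 1 - N, by omega⟩
      obtain ⟨c, hc, hrel⟩ := trK_rel (N := N) (m := m) (k := K + 1) (K := K) hm hK (by omega) rfl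
        (List.replicate k b)
      rw [hrel]
      have h3 := trK_unit (N := N) (m := m - (K + 1)) (by omega) ((List.replicate k b).map lett)
      have h4 := Bm_sum (N := N) (K := K) (by omega) k b
      refine (norm_add_le _ _).trans ?_
      rw [norm_mul, hc, one_mul]
      have h5 : ((m - (K + 1) : ℕ) : ℝ) = m - (K + 1) := by
        rw [Nat.cast_sub (by omega)]; push_cast; ring
      rw [h5] at h3
      linarith
    · have hmN : m = N - 1 := by omega
      subst hmN
      obtain ⟨c, hc, hrel⟩ := trK_top (N := N) (by omega) (List.replicate k b)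
      rw [hrel, norm_mul, hc, one_mul]
      exact Bm_sum (by omega) k b
  · exact trK_unit h _

/-! ### the full twists -/

lemma fts_scalar (hN : 2 ≤ N) {m : ℕ} (hm : m < N) (p : ℤ) : ∃ c : ℂ, ‖c‖ = 1 ∧
    ∀ x : I3 N → ℂ, InK m x → rep3 N (fts p) *ᵥ x = c • x := by
  obtain ⟨u, hu, h⟩ := exists_tw
  have hu0 : u N ≠ 0 := fun h0 => by
    have := hu N
    rw [h0, norm_zero] at this
    norm_num at this
  refine ⟨(u N * ze N ^ (((N - 1 - m : ℕ) : ℤ) ^ 2)) ^ p, ?_, fun x hx => ?_⟩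
  · rw [norm_zpow, norm_mul, hu, ze_zpow_norm, mul_one, _root_.one_zpow]
  · have h2 := h N hN m hm x hx
    rw [ze_pow hm] at h2
    exact Pool.Agent.Y68.V481.TRP.fts_mulVec (mul_ne_zero hu0 (zpow_ne_zero _ (ze_ne N))) h2 p

lemma trK_fts (hN : 2 ≤ N) {m : ℕ} (hm : m < N) (w : List (ℕ × Bool)) (p : ℤ) :
    ‖trK N m (w ++ fts p)‖ = ‖trK N m w‖ := by
  obtain ⟨c, hc, h⟩ := fts_scalar hN hm p
  have h1 : TK (m := m) (good_rep3 (N := N) (w ++ fts p)) = c • TK (m := m) (good_rep3 (N := N) w) := by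
    apply LinearMap.ext
    intro x
    apply Subtype.ext
    change rep3 N (w ++ fts p) *ᵥ x.1 = c • (rep3 N w *ᵥ x.1)
    rw [rep3_append, ← Matrix.mulVec_mulVec, h x.1 x.2, Matrix.mulVec_smul]
  unfold trK
  rw [h1, map_smul, smul_eq_mul, norm_mul, hc, one_mul]

/-- the bound for the trace -/
lemma trace_cube (hN : 1 ≤ N) (w : List (ℕ × Bool)) (h : ∀ m < N, ‖trK N m w‖ ≤ m + 1) :
    ‖(rep3 N w).trace‖ ≤ (N : ℝ) ^ 3 := by
  rw [trace_rep3 hN, norm_mul, Complex.norm_natCast]
  have hg : ∀ n : ℕ, ∑ m ∈ range n, ((m : ℝ) + 1) = n * (n + 1) / 2 := by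
    intro n
    induction n with
    | zero => simp
    | succ n ih => rw [sum_range_succ, ih]; push_cast; ring
  have h1 : ‖trK N (N - 1) w + 2 * ∑ m ∈ range (N - 1), trK N m w‖ ≤ (N : ℝ) ^ 2 := by
    refine (norm_add_le _ _).trans ?_
    rw [norm_mul, Complex.norm_ofNat]
    have h2 := h (N - 1) (by omega)
    have h3 : ‖∑ m ∈ range (N - 1), trK N m w‖ ≤ ((N - 1 : ℕ) : ℝ) * ((N - 1 : ℕ) + 1) / 2 := by
      rw [← hg]
      refine (_root_.norm_sum_le _ _).trans (sum_le_sum fun m hm => ?_)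
      rw [mem_range] at hm
      exact h m (by omega)
    have e1 : ((N - 1 : ℕ) : ℝ) = N - 1 := by rw [Nat.cast_sub hN]; simp
    rw [e1] at h2 h3
    nlinarith
  calc (N : ℝ) * ‖trK N (N - 1) w + 2 * ∑ m ∈ range (N - 1), trK N m w‖ ≤ N * (N : ℝ) ^ 2 :=
        mul_le_mul_of_nonneg_left h1 (by positivity)
    _ = (N : ℝ) ^ 3 := by ring

/-! ### periodic braids -/

lemma wpow_lt {u : List (ℕ × Bool)} (hu : ∀ l ∈ u, l.1 < 2) (n : ℕ) : ∀ l ∈ wpow u n, l.1 < 2 := by
  intro l hl
  unfold wpow at hl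
  rw [List.mem_flatten] at hl
  obtain ⟨v', hv', hl'⟩ := hl
  rw [List.eq_of_mem_replicate hv'] at hl'
  exact hu l hl'

lemma fts_unit (k : ℤ) : rep3 N (fts k) = (((uD N) ^ (2 * k) : (M3 N)ˣ) : M3 N) := by
  rw [← ev_rep3 (Pool.Agent.Y68.V481.TRP.fts_lt k), ev_fts braid_AB]
  rfl

/-- a braid with a power which is a full twist -/
lemma trK_periodic (hN : 2 ≤ N) {m : ℕ} (hm : m < N) {u : List (ℕ × Bool)} (hu : ∀ l ∈ u, l.1 < 2)
    {j : ℤ} (h : ev (uA N) (uB N) u ^ 6 = (uD N) ^ (2 * j)) (n : ℕ) (p : ℤ) :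
    ‖trK N m (wpow u n ++ fts p)‖ ≤ m + 1 := by
  rw [trK_fts hN hm]
  obtain ⟨c, hc, hsc⟩ := fts_scalar hN hm (j * n)
  have h6 : rep3 N (wpow u n) ^ 6 = rep3 N (fts (j * n)) := by
    rw [fts_unit, rep3_wpow, ← ev_rep3 hu, ← Units.val_pow_eq_pow_val, ← Units.val_pow_eq_pow_val,
      ← pow_mul, mul_comm n 6, pow_mul, h, ← zpow_natCast, ← _root_.zpow_mul]
    congr 2
    ring
  have h1 := trace_le (TK (m := m) (good_rep3 (N := N) (wpow u n))) (fun μ x hx hT => by
    have hx' : x.1 ≠ 0 := fun h => hx (Subtype.ext h)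
    have h4 : rep3 N (wpow u n) *ᵥ x.1 = μ • x.1 := congrArg Subtype.val hT
    have h5 := Pool.Agent.Y68.V481.TRP.pow_mulVec h4 6
    have h5' : (rep3 N (wpow u n) ^ 6) *ᵥ x.1 = μ ^ 6 • x.1 := h5
    rw [h6, hsc x.1 x.2] at h5'
    have h7 : (c - μ ^ 6) • x.1 = 0 := by rw [sub_smul, h5', sub_self]
    have h8 := (smul_eq_zero.1 h7).resolve_right hx'
    have h9 : ‖μ‖ ^ 6 = 1 := by rw [← norm_pow, ← sub_eq_zero.1 h8, hc]
    exact (pow_le_one_iff_of_nonneg (norm_nonneg μ) (by norm_num)).1 h9.le)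
  rw [finrank_VK hm] at h1
  unfold trK
  exact_mod_cast h1

/-- the short words -/
lemma short_pow {G : Type} [Group G] {a b : G} (h : a * b * a = b * a * b) {X : List (ℕ × Bool)}
    (hX : Short X) (i : ℤ) : ∃ j : ℤ, ((a * b * a) ^ (2 * i + 1) * ev a b X) ^ 6 =
      (a * b * a) ^ (2 * j) ∧ ∀ v : List (ℕ × Bool), ev a b v * (a * b * a) ^ (2 * j) =
        (a * b * a) ^ (2 * j) * ev a b v := by
  set D := a * b * a with hD
  have hcomm : ∀ (j : ℤ) (v : List (ℕ × Bool)), ev a b v * D ^ (2 * j) = D ^ (2 * j) * ev a b v :=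
    fun j v => D_even' h j (ev a b v) ⟨v, rfl⟩
  have hab : (a * b) ^ 3 = D ^ 2 := by
    have : (a * b) ^ 3 = (a * b * a) * (b * a * b) := by
      rw [pow_succ, sq]; simp only [mul_assoc]
    rw [this, ← h, ← hD, sq]
  -- the even part
  have hev : ∀ Y : G, (∃ v, Y = ev a b v) → ∀ k : ℤ, Y ^ 6 = D ^ (2 * k) →
      ∃ j : ℤ, (D ^ (2 * i) * Y) ^ 6 = D ^ (2 * j) := by
    intro Y hY k hk
    obtain ⟨v, rfl⟩ := hY
    have hc : Commute (D ^ (2 * i)) (ev a b v) := (hcomm i v).symm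
    refine ⟨6 * i + k, ?_⟩
    rw [hc.mul_pow, hk, ← zpow_natCast, ← _root_.zpow_mul, ← _root_.zpow_add]
    congr 1
    push_cast
    ring
  have hDw : D = ev a b [(0, true), (1, true), (0, true)] := by simp [ev, lt, hD, mul_assoc]
  rcases hX with rfl | rfl | rfl
  · obtain ⟨j, hj⟩ := hev D ⟨_, hDw⟩ 3 (by rw [← zpow_natCast]; congr 1)
    refine ⟨j, ?_, hcomm j⟩
    rw [ev_nil, mul_one, _root_.zpow_add, zpow_one]
    exact hj
  · have e1 : D * ev a b [(1, true)] = (a * b) ^ 2 := by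
      simp [ev, lt, hD, sq, mul_assoc]
    obtain ⟨j, hj⟩ := hev (D * ev a b [(1, true)])
      ⟨[(0, true), (1, true), (0, true)] ++ [(1, true)], by rw [ev_append, ← hDw]⟩ 4 (by
        rw [e1, ← pow_mul]
        have : (a * b) ^ (2 * 6) = ((a * b) ^ 3) ^ 4 := by rw [← pow_mul]
        rw [this, hab, ← pow_mul, ← zpow_natCast]
        congr 1)
    refine ⟨j, ?_, hcomm j⟩
    rw [_root_.zpow_add, zpow_one, mul_assoc]
    exact hj
  · have e1 : D * ev a b [(0, false)] = a * b := by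
      simp [ev, lt, hD]
    obtain ⟨j, hj⟩ := hev (D * ev a b [(0, false)])
      ⟨[(0, true), (1, true), (0, true)] ++ [(0, false)], by rw [ev_append, ← hDw]⟩ 2 (by
        rw [e1]
        have : (a * b) ^ 6 = ((a * b) ^ 3) ^ 2 := by rw [← pow_mul]
        rw [this, hab, ← pow_mul, ← zpow_natCast]
        congr 1)
    refine ⟨j, ?_, hcomm j⟩
    rw [_root_.zpow_add, zpow_one, mul_assoc]
    exact hj

/-! ### the trace of a positive word -/

lemma mat_pos (X : List (ℕ × Bool)) (hX : ∀ l ∈ X, Pos l) : ∃ a b c d : ℤ, mat X = !![a, -b; -c, d] ∧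
    1 ≤ a ∧ 0 ≤ b ∧ 0 ≤ c ∧ 1 ≤ d ∧ a * d - b * c = 1 ∧ ((1, true) ∈ X → 1 ≤ c) ∧
      ((0, false) ∈ X → 1 ≤ b) := by
  induction X with
  | nil =>
    refine ⟨1, 0, 0, 1, ?_, le_rfl, le_rfl, le_rfl, le_rfl, by norm_num, by simp, by simp⟩
    unfold mat
    simp
    ext i j
    fin_cases i <;> fin_cases j <;> rfl
  | cons l X ih =>
    obtain ⟨a, b, c, d, h1, h2, h3, h4, h5, h6, h7, h8⟩ := ih fun l' h => hX l' (List.mem_cons_of_mem _ h)
    have hm : mat (l :: X) = (if l.1 = 0 then (if l.2 then !![1, 1; 0, 1] else !![1, -1; 0, 1])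
      else (if l.2 then !![1, 0; -1, 1] else !![1, 0; 1, 1])) * mat X := by
      unfold mat
      rw [List.map_cons, List.prod_cons]
    rcases hX l List.mem_cons_self with rfl | rfl
    · refine ⟨a, b, a + c, b + d, ?_, h2, h3, by omega, by omega, by linarith, fun _ => by omega,
        fun h => h8 ?_⟩
      · rw [hm, h1]
        simp [Matrix.mul_fin_two]
        ring
      · simpa using h
    · refine ⟨a + c, b + d, c, d, ?_, by omega, by omega, h4, h5, by linarith, fun h => h7 ?_,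
        fun _ => by omega⟩
      · rw [hm, h1]
        simp [Matrix.mul_fin_two]
        ring
      · simpa using h

/-- a positive word with a small trace has only one letter -/
lemma single_of_trace (X : List (ℕ × Bool)) (hX : ∀ l ∈ X, Pos l) (h : |(mat X).trace| ≤ 2) :
    ∃ (k : ℕ) (b : Bool), X = (List.replicate k b).map lett := by
  obtain ⟨a, b, c, d, h1, h2, h3, h4, h5, h6, h7, h8⟩ := mat_pos X hX
  have htr : (mat X).trace = a + d := by
    rw [h1, Matrix.trace_fin_two]; simp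
  rw [htr, abs_of_pos (by omega)] at h
  by_cases h9 : (1, true) ∈ X
  · by_cases h10 : (0, false) ∈ X
    · exfalso
      have hb := h8 h10
      have hc := h7 h9
      have : a = 1 ∧ d = 1 := by omega
      rw [this.1, this.2] at h6
      nlinarith
    · refine ⟨X.length, true, ?_⟩
      rw [List.map_replicate]
      refine List.eq_replicate_of_mem fun l hl => ?_
      rcases hX l hl with rfl | rfl
      · rfl
      · exact absurd hl h10
  · refine ⟨X.length, false, ?_⟩
    rw [List.map_replicate]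
    refine List.eq_replicate_of_mem fun l hl => ?_
    rcases hX l hl with rfl | rfl
    · exact absurd hl h9
    · rfl

/-- **braids which are not pseudo-Anosov** -/
theorem trace_nonpA (hN2 : 2 ≤ N) {u : List (ℕ × Bool)} (hu : ∀ l ∈ u, l.1 < 2)
    (htr : |(mat u).trace| ≤ 2) (n : ℕ) (p : ℤ) :
    ‖(rep3 N (wpow u n ++ fts p)).trace‖ ≤ (N : ℝ) ^ 3 := by
  rcases conj_reduce u hu with ⟨i, X, h1, h2, h3⟩ | ⟨i, X, h1, h2⟩
  · rw [abs_trace_even h3] at htr
    obtain ⟨k, b, rfl⟩ := single_of_trace X h1 htr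
    obtain ⟨v, hv⟩ := h3
    have hw : ∀ l ∈ (List.replicate k b).map lett, l.1 < 2 := by
      intro l hl
      rw [List.mem_map] at hl
      obtain ⟨b', _, rfl⟩ := hl
      unfold lett
      split_ifs <;> simp
    rw [trace_conj hu hw (i := i) (fun G _ a b h => ⟨ev a b v, by
      have := hv G a b h
      rw [_root_.zpow_zero, one_mul] at this
      exact this⟩) n p]
    refine trace_cube (by omega) _ fun m hm => ?_
    rw [trK_fts (by omega) hm]
    have e1 : wpow ((List.replicate k b).map lett) n = (List.replicate (n * k) b).map lett := by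
      unfold wpow
      rw [List.map_replicate, List.map_replicate, List.flatten_replicate_replicate]
    rw [e1]
    exact trK_single hm _ b
  · obtain ⟨v, hv⟩ := h2
    have h3 := hv _ (uA N) (uB N) braid_AB
    rw [_root_.zpow_zero, one_mul] at h3
    obtain ⟨j, hj1, hj2⟩ := short_pow (braid_AB (N := N)) h1 i
    refine trace_cube (by omega) _ fun m hm => trK_periodic (by omega) hm hu (j := j) ?_ n p
    rw [h3, conj_pow, hj1, hj2 v, mul_inv_cancel_right]
    rfl

end Pool.Agent.H62.AX
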