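import Pool.Graph.R_seed8.W715.VC.EigMain

/-!
The commutation relation of `E` and `F` on three strands; `F` is injective on small weights.
-/

set_option autoImplicit false

namespace Pool.Agent.H62.AX

open Matrix Finset Pool.Agent.H550R3.Jones Pool.Agent.W715.VC
open scoped Kronecker

variable {N : ℕ}

/-- the commutation relation -/
lemma Et_Ft : Et N * Ft N - Ft N * Et N =
    (rt N - (rt N)⁻¹) • (on12 (KK N) * s3 (Ko N) - on12 (KKi N) * s3 (Ki N)) := by
  have hv : rt N ^ (1 : ℤ) - rt N ^ (-1 : ℤ) = rt N - (rt N)⁻¹ := by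
    rw [zpow_one, _root_.zpow_neg_one]
  set a := on12 (EE N) with ha
  set f := on12 (FF N) with hf
  set k := on12 (KK N) with hk
  set l := on12 (KKi N) with hl
  set e3 := s3 (Eo N) with he3
  set f3 := s3 (Fo N) with hf3
  set k3 := s3 (Ko N) with hk3
  set l3 := s3 (Ki N) with hl3
  have h1 : a * f - f * a = (rt N - (rt N)⁻¹) • (k - l) := by
    rw [ha, hf, on12_mul, on12_mul, hk, hl]
    have h := congrArg (fun X => on12 X) (EE_FF (N := N))
    have e1 : on12 (EE N * FF N - FF N * EE N) = on12 (EE N * FF N) - on12 (FF N * EE N) := by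
      ext p q
      simp only [on12, Matrix.sub_apply]
      split_ifs <;> simp
    have e2 : on12 ((rt N - (rt N)⁻¹) • (KK N - KKi N)) =
        (rt N - (rt N)⁻¹) • (on12 (KK N) - on12 (KKi N)) := by
      ext p q
      simp only [on12, Matrix.sub_apply, Matrix.smul_apply]
      split_ifs <;> simp
    rw [← e1, h, e2]
  have h2 : e3 * f3 - f3 * e3 = (rt N - (rt N)⁻¹) • (k3 - l3) := by
    rw [he3, hf3, s3_mul, s3_mul, hk3, hl3]
    have h := congrArg (fun X => s3 X) (EF_FE (N := N))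
    have e1 : ∀ A B : M1 N, s3 (A - B) = s3 A - s3 B := by
      intro A B
      ext p q
      simp only [s3, Matrix.kroneckerMap_apply, Matrix.sub_apply]
      ring
    have e2 : ∀ (c : ℂ) (A : M1 N), s3 (c • A) = c • s3 A := by
      intro c A
      ext p q
      simp only [s3, Matrix.kroneckerMap_apply, Matrix.smul_apply, smul_eq_mul]
      ring
    rw [← e1, h, e2, e1, hv]
  have h3 : k3 * f3 = rt N ^ (-2 : ℤ) • (f3 * k3) := by
    rw [hk3, hf3, s3_mul, s3_mul, K_F]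
    unfold s3
    rw [Matrix.kronecker_smul, Matrix.kronecker_smul]
  have h4 : l * a = rt N ^ (-2 : ℤ) • (a * l) := by
    rw [hl, ha, on12_mul, on12_mul, KKi_EE]
    ext p q
    simp only [on12, Matrix.smul_apply]
    split_ifs <;> simp
  have c1 : k3 * f = f * k3 := (on12_comm_s3 _ _).symm
  have c2 : k3 * l = l * k3 := (on12_comm_s3 _ _).symm
  have c3 : e3 * f = f * e3 := (on12_comm_s3 _ _).symm
  have c4 : e3 * l = l * e3 := (on12_comm_s3 _ _).symm
  have c5 : f3 * a = a * f3 := (on12_comm_s3 _ _).symm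
  have hE : Et N = a * k3 + e3 := rfl
  have hF : Ft N = f + l * f3 := rfl
  have p1 : Et N * Ft N = a * f * k3 + rt N ^ (-2 : ℤ) • (a * l * (f3 * k3)) + f * e3 +
      l * (e3 * f3) := by
    rw [hE, hF]
    have e1 : a * k3 * (l * f3) = rt N ^ (-2 : ℤ) • (a * l * (f3 * k3)) := by
      calc a * k3 * (l * f3) = a * (k3 * l) * f3 := by noncomm_ring
        _ = a * (l * k3) * f3 := by rw [c2]
        _ = a * l * (k3 * f3) := by noncomm_ring
        _ = _ := by rw [h3, Matrix.mul_smul]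
    calc (a * k3 + e3) * (f + l * f3) = a * (k3 * f) + a * k3 * (l * f3) + e3 * f + e3 * l * f3 := by
          noncomm_ring
      _ = a * (f * k3) + rt N ^ (-2 : ℤ) • (a * l * (f3 * k3)) + f * e3 + l * e3 * f3 := by
          rw [c1, e1, c3, c4]
      _ = _ := by noncomm_ring
  have p2 : Ft N * Et N = f * a * k3 + f * e3 + rt N ^ (-2 : ℤ) • (a * l * (f3 * k3)) +
      l * (f3 * e3) := by
    rw [hE, hF]
    have e1 : l * f3 * (a * k3) = rt N ^ (-2 : ℤ) • (a * l * (f3 * k3)) := by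
      calc l * f3 * (a * k3) = l * (f3 * a) * k3 := by noncomm_ring
        _ = l * (a * f3) * k3 := by rw [c5]
        _ = (l * a) * (f3 * k3) := by noncomm_ring
        _ = _ := by rw [h4, Matrix.smul_mul]
    calc (f + l * f3) * (a * k3 + e3) = f * a * k3 + f * e3 + l * f3 * (a * k3) + l * (f3 * e3) := by
          noncomm_ring
      _ = _ := by rw [e1]
  have p3 : Et N * Ft N - Ft N * Et N = (a * f - f * a) * k3 + l * (e3 * f3 - f3 * e3) := by
    rw [p1, p2]
    noncomm_ring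
  rw [p3, h1, h2, Matrix.smul_mul, Matrix.mul_smul, ← smul_add]
  congr 1
  noncomm_ring

lemma kt_mulVec {m : ℕ} {x : I3 N → ℂ} (hx : InW m x) :
    (on12 (KK N) * s3 (Ko N)) *ᵥ x = rt N ^ (3 * (N : ℤ) - 3 - 2 * m) • x := by
  apply hat_ext
  intro a b c
  rw [on12_KK, ← Matrix.mulVec_mulVec, ← Matrix.mulVec_mulVec, hat_s1K, hat_s2K, hat_s3K, hat_smul]
  by_cases h : hat x a b c = 0
  · rw [h]; ring
  · have h1 := hx a b c h
    rw [← mul_assoc, ← mul_assoc, ← zpow_add₀ (rt_ne N), ← zpow_add₀ (rt_ne N)]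
    congr 2
    have : (m : ℤ) = a + b + c := by exact_mod_cast h1.symm
    rw [this]; ring

lemma kti_mulVec {m : ℕ} {x : I3 N → ℂ} (hx : InW m x) :
    (on12 (KKi N) * s3 (Ki N)) *ᵥ x = rt N ^ (-(3 * (N : ℤ) - 3 - 2 * m)) • x := by
  apply hat_ext
  intro a b c
  rw [on12_KKi, ← Matrix.mulVec_mulVec, ← Matrix.mulVec_mulVec, hat_s1Ki, hat_s2Ki, hat_s3Ki,
    hat_smul]
  by_cases h : hat x a b c = 0
  · rw [h]; ring
  · have h1 := hx a b c h
    rw [← mul_assoc, ← mul_assoc, ← zpow_add₀ (rt_ne N), ← zpow_add₀ (rt_ne N)]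
    congr 2
    have : (m : ℤ) = a + b + c := by exact_mod_cast h1.symm
    rw [this]; ring

/-- the commutation relation on vectors -/
lemma Et_Ft_mulVec {m : ℕ} {x : I3 N → ℂ} (hx : InW m x) : Et N *ᵥ (Ft N *ᵥ x) =
    Ft N *ᵥ (Et N *ᵥ x) + (br (rt N) 1 * br (rt N) (3 * (N : ℤ) - 3 - 2 * m)) • x := by
  have h := congrArg (fun X => X *ᵥ x) (Et_Ft (N := N))
  rw [Matrix.sub_mulVec, Matrix.smul_mulVec, Matrix.sub_mulVec, kt_mulVec hx, kti_mulVec hx,
    ← Matrix.mulVec_mulVec, ← Matrix.mulVec_mulVec] at h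
  rw [← sub_eq_iff_eq_add', h, ← sub_smul, smul_smul]
  congr 1
  unfold br
  rw [zpow_one, _root_.zpow_neg_one]

lemma Ft_InW (hN : 0 < N) {m : ℕ} {x : I3 N → ℂ} (hx : InW m x) : InW (m + 1) (Ft N *ᵥ x) := by
  have h := wp_raise (Ft_wt hN) m x
  rw [wp_of_InW hx] at h
  rw [← h]
  exact wp_InW _ _

lemma Et_InW (hN : 0 < N) {m : ℕ} {x : I3 N → ℂ} (hx : InW (m + 1) x) : InW m (Et N *ᵥ x) := by
  have h := wp_lower (Et_wt hN) m x
  rw [wp_of_InW hx] at h
  rw [← h]
  exact wp_InW _ _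

lemma Ft_pow_InW (hN : 0 < N) {m : ℕ} {x : I3 N → ℂ} (hx : InW m x) (j : ℕ) :
    InW (m + j) (Ft N ^ j *ᵥ x) := by
  induction j with
  | zero => rw [pow_zero, one_mulVec]; exact hx
  | succ j ih =>
    rw [pow_succ', ← Matrix.mulVec_mulVec]
    exact Ft_InW hN ih

lemma br_id {v : ℂ} (hv : v ≠ 0) (j l : ℤ) : br v j * br v (l - j + 1) + br v 1 * br v (l - 2 * j) =
    br v (j + 1) * br v (l - j) := by
  unfold br
  have e : ∀ a b : ℤ, (v ^ a - v ^ (-a)) * (v ^ b - v ^ (-b)) =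
      v ^ (a + b) + v ^ (-(a + b)) - v ^ (a - b) - v ^ (-(a - b)) := by
    intro a b
    rw [sub_mul, mul_sub, mul_sub, ← zpow_add₀ hv, ← zpow_add₀ hv, ← zpow_add₀ hv, ← zpow_add₀ hv]
    have e1 : -a + -b = -(a + b) := by ring
    have e2 : a + -b = a - b := by ring
    have e3 : -a + b = -(a - b) := by ring
    rw [e1, e2, e3]; ring
  rw [e, e, e]
  have g1 : j + (l - j + 1) = l + 1 := by ring
  have g2 : j - (l - j + 1) = -(l + 1 - 2 * j) := by ring
  have g3 : 1 + (l - 2 * j) = l + 1 - 2 * j := by ring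
  have g4 : 1 - (l - 2 * j) = -(l - 1 - 2 * j) := by ring
  have g5 : j + 1 + (l - j) = l + 1 := by ring
  have g6 : j + 1 - (l - j) = -(l - 1 - 2 * j) := by ring
  rw [g1, g2, g3, g4, g5, g6]
  simp only [neg_neg]
  ring

/-- powers of `F` -/
lemma Et_Ft_pow (hN : 0 < N) {m : ℕ} {x : I3 N → ℂ} (hx : InW m x) (j : ℕ) :
    Et N *ᵥ (Ft N ^ (j + 1) *ᵥ x) = Ft N ^ (j + 1) *ᵥ (Et N *ᵥ x) +
      (br (rt N) ((j : ℤ) + 1) * br (rt N) (3 * (N : ℤ) - 3 - 2 * m - j)) • (Ft N ^ j *ᵥ x) := by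
  induction j with
  | zero =>
    rw [zero_add, pow_one, pow_zero, one_mulVec, Et_Ft_mulVec hx]
    simp
  | succ j ih =>
    have h1 : Ft N ^ (j + 1 + 1) *ᵥ x = Ft N *ᵥ (Ft N ^ (j + 1) *ᵥ x) := by
      rw [pow_succ', ← Matrix.mulVec_mulVec]
    have h2 : Ft N *ᵥ (Ft N ^ (j + 1) *ᵥ (Et N *ᵥ x)) = Ft N ^ (j + 1 + 1) *ᵥ (Et N *ᵥ x) := by
      rw [pow_succ' _ (j + 1), ← Matrix.mulVec_mulVec]
    have h3 : Ft N *ᵥ (Ft N ^ j *ᵥ x) = Ft N ^ (j + 1) *ᵥ x := by
      rw [pow_succ', ← Matrix.mulVec_mulVec]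
    rw [h1, Et_Ft_mulVec (Ft_pow_InW hN hx (j + 1)), ih, Matrix.mulVec_add, Matrix.mulVec_smul,
      h2, h3, add_assoc, ← add_smul]
    congr 2
    have := br_id (rt_ne N) ((j : ℤ) + 1) (3 * (N : ℤ) - 3 - 2 * m)
    push_cast
    have g1 : 3 * (N : ℤ) - 3 - 2 * m - (j + 1) + 1 = 3 * (N : ℤ) - 3 - 2 * m - j := by ring
    have g2 : 3 * (N : ℤ) - 3 - 2 * m - 2 * (j + 1) = 3 * (N : ℤ) - 3 - 2 * (m + (j + 1)) := by ring
    rw [g1, g2] at this
    exact this

lemma on23_zero {A : M2 N} {x : I3 N → ℂ} {a : Fin N} (h : ∀ q, x (a, q) = 0) (p : Fin N × Fin N) :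
    (on23 A *ᵥ x) (a, p) = 0 := by
  simp only [Matrix.mulVec, dotProduct]
  refine sum_eq_zero fun q _ => ?_
  unfold on23
  obtain ⟨q1, q2⟩ := q
  split_ifs with h1
  · dsimp only at h1
    rw [← h1, h, mul_zero]
  · rw [zero_mul]

/-- `F` is injective on small weights -/
lemma Ft_inj (hN : 0 < N) {s : ℕ} (hs : s + 1 < N) {x : I3 N → ℂ} (hx : InW s x)
    (h : Ft N *ᵥ x = 0) : x = 0 := by
  have key : ∀ n : ℕ, ∀ a b c : ℕ, s < a + n → hat x a b c = 0 := by
    intro n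
    induction n with
    | zero =>
      intro a b c ha
      by_contra h1
      have := hx a b c h1
      omega
    | succ n ih =>
      intro a b c ha
      by_cases ha1 : s < a + n
      · exact ih a b c ha1
      · by_cases hbc : b < N ∧ c < N
        · have h1 : hat (Ft N *ᵥ x) (a + 1) b c = 0 := by rw [h, hat_zero]
          rw [Ft_eq, Matrix.add_mulVec, hat_add, hat_s1F_succ hN, ← Matrix.mulVec_mulVec,
            hat_s1Ki] at h1
          have h2 : hat (F23 N *ᵥ x) (a + 1) b c = 0 := by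
            have h3 : a + 1 < N := by omega
            unfold hat
            rw [dif_pos ⟨h3, hbc.1, hbc.2⟩]
            refine on23_zero (fun q => ?_) _
            have h4 := ih (a + 1) q.1 q.2 (by omega)
            have h5 := hat_of x ((⟨a + 1, h3⟩ : Fin N), q)
            rw [← h5]
            exact h4
          rw [h2, mul_zero, add_zero] at h1
          have h3 : br (rt N) ((a : ℤ) + 1) ≠ 0 := br_ne (by omega) (by omega)
          exact (mul_eq_zero.1 h1).resolve_left h3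
        · exact hat_out _ (by tauto)
  apply hat_ext
  intro a b c
  rw [hat_zero]
  exact key (s + 1) a b c (by omega)

lemma Ft_pow_inj (hN : 0 < N) {s : ℕ} (j : ℕ) (hs : s + j < N) {x : I3 N → ℂ} (hx : InW s x)
    (h : Ft N ^ j *ᵥ x = 0) : x = 0 := by
  induction j with
  | zero => rwa [pow_zero, one_mulVec] at h
  | succ j ih =>
    rw [pow_succ', ← Matrix.mulVec_mulVec] at h
    exact ih (by omega) (Ft_inj hN (s := s + j) (by omega) (Ft_pow_InW hN hx j) h)

end Pool.Agent.H62.AX
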