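import Mathlib

/-!
Trace of an endomorphism and of a quotient.
-/

set_option autoImplicit false

namespace Pool.Agent.H62.AX

open LinearMap

variable {V W : Type} [AddCommGroup V] [Module ℂ V] [FiniteDimensional ℂ V]
  [AddCommGroup W] [Module ℂ W] [FiniteDimensional ℂ W]

/-- the trace is the sum of the traces on the kernel and on the image of an intertwiner -/
theorem trace_ker (T : V →ₗ[ℂ] V) (S : W →ₗ[ℂ] W) (Y : V →ₗ[ℂ] W) (hY : Function.Surjective Y)
    (h : Y ∘ₗ T = S ∘ₗ Y) (hT : ∀ x ∈ ker Y, T x ∈ ker Y) :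
    trace ℂ V T = trace ℂ (ker Y) (T.restrict hT) + trace ℂ W S := by
  obtain ⟨s, hs⟩ := Y.exists_rightInverse_of_surjective (LinearMap.range_eq_top.2 hY)
  set q : V →ₗ[ℂ] V := LinearMap.id - s ∘ₗ Y with hq
  have hP : ∀ x, q x ∈ ker Y := by
    intro x
    rw [LinearMap.mem_ker]
    have := LinearMap.congr_fun hs (Y x)
    simp only [LinearMap.comp_apply, LinearMap.id_apply] at this
    simp only [hq, LinearMap.sub_apply, LinearMap.id_apply, LinearMap.comp_apply, map_sub, this,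
      sub_self]
  set p : V →ₗ[ℂ] ker Y := LinearMap.codRestrict (ker Y) q hP with hp
  have e1 : T = T ∘ₗ ((ker Y).subtype ∘ₗ p) + T ∘ₗ (s ∘ₗ Y) := by
    ext x
    simp [hp, hq]
  have e2 : trace ℂ V (T ∘ₗ (s ∘ₗ Y)) = trace ℂ W S := by
    rw [← LinearMap.comp_assoc, LinearMap.trace_comp_comm', ← LinearMap.comp_assoc, h,
      LinearMap.comp_assoc, hs, LinearMap.comp_id]
  have e3 : trace ℂ V (T ∘ₗ ((ker Y).subtype ∘ₗ p)) = trace ℂ (ker Y) (T.restrict hT) := by
    rw [← LinearMap.comp_assoc, LinearMap.trace_comp_comm']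
    congr 1
    ext x
    simp only [hp, hq, LinearMap.comp_apply, LinearMap.codRestrict_apply, Submodule.subtype_apply,
      LinearMap.restrict_apply, LinearMap.sub_apply, LinearMap.id_apply]
    have h1 : Y (T x) = 0 := hT x x.2
    rw [h1, map_zero, sub_zero]
  conv_lhs => rw [e1]
  rw [map_add, e2, e3]

/-- the trace is invariant under a bijective intertwiner -/
theorem trace_iso (T : V →ₗ[ℂ] V) (S : W →ₗ[ℂ] W) (Y : V →ₗ[ℂ] W) (hY : Function.Bijective Y)
    (h : Y ∘ₗ T = S ∘ₗ Y) : trace ℂ V T = trace ℂ W S := by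
  set e : V ≃ₗ[ℂ] W := LinearEquiv.ofBijective Y hY with he
  have h1 : S = e.toLinearMap ∘ₗ T ∘ₗ e.symm.toLinearMap := by
    ext w
    obtain ⟨v, rfl⟩ := hY.2 w
    have h2 : e.symm (Y v) = v := e.symm_apply_apply v
    simp only [LinearMap.comp_apply, LinearEquiv.coe_coe, h2]
    exact (LinearMap.congr_fun h v).symm
  rw [h1]
  exact (LinearMap.trace_conj' T e).symm

end Pool.Agent.H62.AX
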