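import Pool.Agent.H62.AX.Cls

/-!
The lower bound for the mean square.
-/

set_option autoImplicit false

namespace Pool.Agent.H62.AX

open Matrix Finset Pool.Agent.H550R3.Jones Pool.Agent.W715.VC Pool.Agent.H62.VC
open Pool.Agent.Y481 (ftw ftwi fts)
open scoped Real

variable {N : ℕ}

/-- the colour -/
lemma choose_j {q r e : ℕ} (hr : r.Prime) (hr2 : r ≠ 2) (hq : q = r ^ e) (he : 0 < e) {κ : ℝ}
    (hκ0 : 0 < κ) (hκ1 : κ ≤ 1 / 2) (hκq : 16 ≤ κ * q) :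
    ∃ j : ℕ, 0 < j ∧ 2 * j < q ∧ ¬ r ∣ j ∧ 3 / 4 * (κ * q) ≤ ((q - 2 * j : ℕ) : ℝ) ∧
      ((q - 2 * j : ℕ) : ℝ) ≤ κ * q := by
  have hrq : r ∣ q := by rw [hq]; exact dvd_pow_self r (by omega)
  have hrodd : Odd r := hr.odd_of_ne_two hr2
  have hqodd : Odd q := by rw [hq]; exact hrodd.pow
  set t := ⌊κ * (q : ℝ)⌋₊ with ht
  have ht1 : (t : ℝ) ≤ κ * q := Nat.floor_le (by positivity)
  have ht2 : κ * q < t + 1 := Nat.lt_floor_add_one _
  have hq0 : (0 : ℝ) ≤ q := Nat.cast_nonneg q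
  have ht16 : 16 ≤ t := Nat.le_floor (by exact_mod_cast hκq)
  have htq : 2 * t ≤ q := by
    have : 2 * (t : ℝ) ≤ q := by nlinarith
    exact_mod_cast this
  -- an odd number
  obtain ⟨i, hi1, hi2, hi3, hi4⟩ : ∃ i : ℕ, Odd i ∧ ¬ r ∣ i ∧ i ≤ t ∧ t ≤ i + 3 := by
    obtain ⟨i₀, h1, h2, h3⟩ : ∃ i₀ : ℕ, Odd i₀ ∧ i₀ ≤ t ∧ t ≤ i₀ + 1 := by
      rcases Nat.even_or_odd' t with ⟨s, hs | hs⟩
      · exact ⟨t - 1, ⟨s - 1, by omega⟩, by omega, by omega⟩
      · exact ⟨t, ⟨s, hs⟩, le_rfl, by omega⟩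
    by_cases h4 : r ∣ i₀
    · refine ⟨i₀ - 2, ?_, ?_, by omega, by omega⟩
      · obtain ⟨s, hs⟩ := h1
        exact ⟨s - 1, by omega⟩
      · intro h5
        have h6 := Nat.dvd_sub h4 h5
        have e1 : i₀ - (i₀ - 2) = 2 := by omega
        rw [e1] at h6
        exact hr2 ((Nat.prime_dvd_prime_iff_eq hr Nat.prime_two).1 h6)
    · exact ⟨i₀, h1, h4, h2, by omega⟩
  obtain ⟨a, ha⟩ := hqodd
  obtain ⟨b, hb⟩ := hi1
  have e1 : q - 2 * (a - b) = i := by omega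
  refine ⟨a - b, by omega, by omega, ?_, ?_, ?_⟩
  · intro h5
    have h6 : r ∣ q - 2 * (a - b) := Nat.dvd_sub hrq (Dvd.dvd.mul_left h5 2)
    rw [e1] at h6
    exact hi2 h6
  · rw [e1]
    have : (t : ℝ) ≤ i + 3 := by exact_mod_cast hi4
    linarith
  · rw [e1]
    have : (i : ℝ) ≤ t := by exact_mod_cast hi3
    linarith

lemma half_le_log : 1 / 2 ≤ Real.log (5 / 3) := by
  rw [Real.le_log_iff_exp_le (by norm_num)]
  have h5 : Real.exp (1 / 2) ^ 2 = Real.exp 1 := by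
    rw [← Real.exp_nat_mul]; norm_num
  have h6 := Real.exp_one_lt_d9
  have h7 := Real.exp_pos (1 / 2)
  by_contra hcon
  push Not at hcon
  nlinarith

/-- good levels -/
structure Lev (N : ℕ) (Q : ℝ) (q M r e : ℕ) : Prop where
  hr : r.Prime
  hr2 : r ≠ 2
  hq : q = r ^ e
  he : 0 < e
  hM : Squarefree M
  hqM : Nat.Coprime q M
  hN : N = q * M
  hQ : Q ≤ q

/-- the class coefficient is large -/
theorem class_big {A : ℕ} (hA : 1 ≤ A) {l : List (ℕ × ℕ)} (hl : TV.Ok A l) (hne : l ≠ [])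
    {q M r e : ℕ} (h : Lev N (10 ^ 57 * ((A : ℝ) + 1) ^ 12) q M r e) :
    ∃ s : ℤ, 2 * N * Real.exp (l.length / (4 * 10 ^ 25 * ((A : ℝ) + 1) ^ 6) * N) ≤
      ‖Cs N (Ac N ((TV.alt l).map lett)) s‖ := by
  obtain ⟨hr, hr2, hq, he, hM, hqM, hN, hQ⟩ := h
  have hA0 : (0 : ℝ) ≤ A := Nat.cast_nonneg A
  have hA1 : (1 : ℝ) ≤ (A : ℝ) + 1 := by linarith
  set ee : ℝ := 1 / (10 ^ 11 * ((A : ℝ) + 1) ^ 3) with hee
  have hA3 : (1 : ℝ) ≤ ((A : ℝ) + 1) ^ 3 := one_le_pow₀ hA1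
  have he0 : 0 < ee := by rw [hee]; positivity
  have he1 : ee ≤ 1 / 40 := by
    rw [hee, div_le_div_iff₀ (by positivity) (by norm_num)]
    nlinarith
  have heA : ee * ((A : ℝ) + 1) ^ 3 ≤ 1 / 10 ^ 11 := by
    rw [hee]
    apply le_of_eq
    field_simp
  set κ : ℝ := 1 / (10 ^ 25 * ((A : ℝ) + 1) ^ 6) with hκ
  have hκe : κ = ee ^ 2 / 1000 := by
    rw [hκ, hee]
    field_simp
    norm_num
  have hA6 : (1 : ℝ) ≤ ((A : ℝ) + 1) ^ 6 := one_le_pow₀ hA1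
  have hκ0 : 0 < κ := by rw [hκ]; positivity
  have hκ1 : κ ≤ 1 / 10 ^ 25 := by
    rw [hκ, div_le_div_iff₀ (by positivity) (by norm_num)]
    nlinarith
  have hκQ : 10 ^ 7 / κ ^ 2 = 10 ^ 57 * ((A : ℝ) + 1) ^ 12 := by
    rw [hκ]
    field_simp
  rw [← hκQ, div_le_iff₀ (by positivity)] at hQ
  have hq0 : (0 : ℝ) < q := by
    by_contra hcon
    push Not at hcon
    have : (q : ℝ) * κ ^ 2 ≤ 0 := mul_nonpos_of_nonpos_of_nonneg hcon (by positivity)
    linarith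
  have hκq : 10 ^ 7 ≤ κ * q := by
    have h1 : (q : ℝ) * κ ^ 2 ≤ κ * q := by
      have h2 : κ ^ 2 ≤ κ := by nlinarith
      nlinarith
    linarith
  have hM0 : 0 < M := Nat.pos_of_ne_zero fun h0 => by
    rw [h0] at hM
    exact not_squarefree_zero hM
  have hM1 : (1 : ℝ) ≤ M := by exact_mod_cast hM0
  have hNr : (N : ℝ) = q * M := by rw [hN]; push_cast; ring
  obtain ⟨j, hj0, hjq, hj, hj1, hj2⟩ := choose_j hr hr2 hq he hκ0 (by linarith) (by linarith)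
  set i := q - 2 * j with hi
  have hi0 : 0 < i := by omega
  obtain ⟨K, hK⟩ : ∃ K, K + 1 = M * i := ⟨M * i - 1, by have := Nat.mul_pos hM0 hi0; omega⟩
  have hKr : (K : ℝ) + 1 = M * i := by exact_mod_cast hK
  have hNκ : 10 ^ 7 ≤ κ * N := by
    rw [hNr]
    have : κ * q * 1 ≤ κ * q * M := mul_le_mul_of_nonneg_left hM1 (by positivity)
    linarith
  have hN2 : 10 ^ 7 ≤ κ ^ 2 * N := by
    rw [hNr]
    have : κ ^ 2 * q * 1 ≤ κ ^ 2 * q * M := mul_le_mul_of_nonneg_left hM1 (by positivity)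
    linarith
  have hKlow : 3 / 4 * (κ * N) ≤ (K : ℝ) + 1 := by
    rw [hKr, hNr]
    have : (M : ℝ) * (3 / 4 * (κ * q)) ≤ M * i := mul_le_mul_of_nonneg_left hj1 (by positivity)
    linarith
  have hKup : (K : ℝ) + 1 ≤ κ * N := by
    rw [hKr, hNr]
    have : (M : ℝ) * i ≤ M * (κ * q) := mul_le_mul_of_nonneg_left hj2 (by positivity)
    linarith
  have hN0 : 0 < N := by
    rw [hN]
    exact Nat.mul_pos (by exact_mod_cast hq0) hM0
  have hN0r : (0 : ℝ) < N := by exact_mod_cast hN0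
  have hKN : K < N := by
    have : (K : ℝ) < N := by nlinarith
    exact_mod_cast this
  have hpr := pr_rt (N := N) (K := K) he0 he1 hN0 (by
    have : ee ^ 2 * N / 1000 = κ * N := by rw [hκe]; ring
    rw [this]; linarith) hKN
  have hK6 : 1000000 ≤ K := by
    have : (1000000 : ℝ) ≤ K := by linarith
    exact_mod_cast this
  have h1 := TV.trace_alt hpr hK6 hA heA hl hne
  have h2 := class_low hr hr2 hq he hM hqM hN hj hj0 hM0 hjq hK (TV.alt l)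
  refine ⟨_, le_trans ?_ h2⟩
  have h3 : Real.exp (l.length * K / 2) ≤ ((5 / 3 : ℝ) ^ l.length) ^ K := by
    rw [← pow_mul, ← Real.exp_log (show (0 : ℝ) < 5 / 3 by norm_num), ← Real.exp_nat_mul]
    apply Real.exp_le_exp.2
    push_cast
    have h4 : (0 : ℝ) ≤ l.length * K := by positivity
    have := mul_le_mul_of_nonneg_left half_le_log h4
    linarith
  have hlen : (1 : ℝ) ≤ l.length := by exact_mod_cast List.length_pos_iff.2 hne
  have hKlow2 : 5 / 8 * (κ * N) ≤ (K : ℝ) := by linarith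
  have h4 : (l.length : ℝ) * κ / 4 * N + κ * N / 16 ≤ l.length * K / 2 := by
    have h5 : (l.length : ℝ) * (5 / 8 * (κ * N)) ≤ l.length * K :=
      mul_le_mul_of_nonneg_left hKlow2 (by positivity)
    have h6 : κ * N * 1 ≤ κ * N * l.length := mul_le_mul_of_nonneg_left hlen (by positivity)
    linarith
  have h5 : 20 * (N : ℝ) ≤ Real.exp (κ * N / 16) := by
    have h6 := Real.quadratic_le_exp_of_nonneg (x := κ * N / 16) (by positivity)
    have h7 : 20 * (N : ℝ) ≤ (κ * N / 16) ^ 2 / 2 := by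
      have : (10 ^ 7 : ℝ) * N ≤ κ ^ 2 * N * N := mul_le_mul_of_nonneg_right hN2 hN0r.le
      nlinarith
    have h8 : 0 ≤ κ * N / 16 := by positivity
    linarith
  have h6 : Real.exp (l.length * κ / 4 * N) * (20 * N) ≤ Real.exp (l.length * K / 2) := by
    refine le_trans ?_ (Real.exp_le_exp.2 h4)
    rw [Real.exp_add]
    exact mul_le_mul_of_nonneg_left h5 (Real.exp_pos _).le
  have h7 : (l.length : ℝ) / (4 * 10 ^ 25 * ((A : ℝ) + 1) ^ 6) * N = l.length * κ / 4 * N := by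
    rw [hκ]
    field_simp
  rw [h7]
  have h8 : 1 ≤ Real.exp (l.length * κ / 4 * N) := Real.one_le_exp (by positivity)
  set E := Real.exp (l.length * κ / 4 * N) with hE
  have h9 : E * (20 * N) / 10 ≤ ‖∑ d ∈ range (K + 1), TV.Bm (rt N) 1 K (TV.alt l) d d‖ := by
    refine le_trans ?_ h1
    have := h6.trans h3
    linarith
  have h10 : (N : ℝ) ≤ N * E := by nlinarith
  linarith

/-- **the mean square** -/
theorem mean_low {A : ℕ} (hA : 1 ≤ A) {l : List (ℕ × ℕ)} (hl : TV.Ok A l) (hne : l ≠ [])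
    {q M r e : ℕ} (h : Lev N (10 ^ 57 * ((A : ℝ) + 1) ^ 12) q M r e) (a : ℤ) :
    N * Real.exp (l.length / (4 * 10 ^ 25 * ((A : ℝ) + 1) ^ 6) * N) ^ 2 ≤
      ∑ p ∈ range N, ‖(rep3 N ((TV.alt l).map lett ++ fts (a + p))).trace‖ ^ 2 := by
  obtain ⟨s, hs⟩ := class_big hA hl hne h
  obtain ⟨u, hu, htw⟩ := exists_twist
  have hN2 : 2 ≤ N := by
    obtain ⟨hr, hr2, hq, he, hM, hqM, hN, hQ⟩ := h
    have hM0 : 0 < M := Nat.pos_of_ne_zero fun h0 => by
      rw [h0] at hM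
      exact not_squarefree_zero hM
    have : 2 ≤ q := by
      rw [hq]
      exact hr.two_le.trans (Nat.le_self_pow (by omega) r)
    rw [hN]
    nlinarith
  have h1 := trace_mean hu htw hN2 ((TV.alt l).map lett) a s
  refine le_trans ?_ h1
  have hN1 : (1 : ℝ) ≤ N := by exact_mod_cast (by omega : 1 ≤ N)
  set E := Real.exp (l.length / (4 * 10 ^ 25 * ((A : ℝ) + 1) ^ 6) * N) with hE
  have hE0 : 0 < E := Real.exp_pos _
  have h2 : (2 * N * E) ^ 2 ≤ ‖Cs N (Ac N ((TV.alt l).map lett)) s‖ ^ 2 :=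
    pow_le_pow_left₀ (by positivity) hs 2
  have h3 : E ^ 2 ≤ ‖Cs N (Ac N ((TV.alt l).map lett)) s‖ ^ 2 := by
    refine le_trans ?_ h2
    refine pow_le_pow_left₀ hE0.le ?_ 2
    nlinarith
  have h4 : (N : ℝ) ≤ (N : ℝ) ^ 3 := by nlinarith [sq_nonneg ((N : ℝ) - 1), sq_nonneg (N : ℝ)]
  calc (N : ℝ) * E ^ 2 ≤ (N : ℝ) ^ 3 * E ^ 2 := mul_le_mul_of_nonneg_right h4 (by positivity)
    _ ≤ _ := mul_le_mul_of_nonneg_left h3 (by positivity)

end Pool.Agent.H62.AX
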