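import Pool.Agent.H62.AX.Unit

/-!
Parseval for the full twists.
-/

set_option autoImplicit false

namespace Pool.Agent.H62.AX

open Matrix Finset Pool.Agent.H550R3.Jones Pool.Agent.W715.VC Pool.Agent.H62.VC
open Pool.Agent.Y481 (ftw ftwi fts)

variable {N : ℕ}

lemma ze_prim (hN : 0 < N) : IsPrimitiveRoot (ze N) N := Complex.isPrimitiveRoot_exp N (by omega)

lemma ze_one_iff (hN : 0 < N) (a : ℤ) : ze N ^ a = 1 ↔ (N : ℤ) ∣ a :=
  (ze_prim hN).zpow_eq_one_iff_dvd a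

lemma sum_ze (hN : 0 < N) (a : ℤ) : ∑ p ∈ range N, ze N ^ ((p : ℤ) * a) =
    if (N : ℤ) ∣ a then (N : ℂ) else 0 := by
  have h1 : ∀ p : ℕ, ze N ^ ((p : ℤ) * a) = (ze N ^ a) ^ p := by
    intro p
    rw [mul_comm, _root_.zpow_mul, zpow_natCast]
  simp only [h1]
  split_ifs with h
  · rw [(ze_one_iff hN a).2 h]
    simp
  · have h2 : ze N ^ a ≠ 1 := fun h3 => h ((ze_one_iff hN a).1 h3)
    have h3 : (ze N ^ a) ^ N = 1 := by
      rw [← zpow_natCast, ← _root_.zpow_mul, mul_comm, _root_.zpow_mul, zpow_natCast,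
        (ze_prim hN).pow_eq_one, _root_.one_zpow]
    have h4 := mul_geom_sum (ze N ^ a) N
    rw [h3, sub_self] at h4
    exact (mul_eq_zero.1 h4).resolve_left (sub_ne_zero.2 h2)

/-- the sum over the colours -/
noncomputable def Fs (N : ℕ) (A : ℕ → ℂ) (p : ℤ) : ℂ := ∑ δ ∈ range N, A δ * ze N ^ (p * (δ : ℤ) ^ 2)

/-- the class coefficient -/
noncomputable def Cs (N : ℕ) (A : ℕ → ℂ) (s : ℤ) : ℂ :=
  ∑ δ ∈ range N, if (N : ℤ) ∣ (δ : ℤ) ^ 2 - s then A δ else 0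

lemma Fs_coef (hN : 0 < N) (A : ℕ → ℂ) (a s : ℤ) :
    ∑ p ∈ range N, Fs N A (a + p) * ze N ^ (-((a + p) * s)) = N * Cs N A s := by
  unfold Fs Cs
  have h1 : ∀ p ∈ range N, (∑ δ ∈ range N, A δ * ze N ^ ((a + (p : ℤ)) * (δ : ℤ) ^ 2)) *
      ze N ^ (-((a + (p : ℤ)) * s)) = ∑ δ ∈ range N, A δ * ze N ^ (a * ((δ : ℤ) ^ 2 - s)) *
        ze N ^ ((p : ℤ) * ((δ : ℤ) ^ 2 - s)) := by
    intro p _
    rw [sum_mul]
    refine sum_congr rfl fun δ _ => ?_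
    rw [mul_assoc, mul_assoc, ← zpow_add₀ (ze_ne N), ← zpow_add₀ (ze_ne N)]
    congr 2
    ring
  rw [sum_congr rfl h1, sum_comm, mul_sum]
  refine sum_congr rfl fun δ _ => ?_
  rw [← mul_sum, sum_ze hN]
  split_ifs with h
  · have : ze N ^ (a * ((δ : ℤ) ^ 2 - s)) = 1 := (ze_one_iff hN _).2 (Dvd.dvd.mul_left h a)
    rw [this]; ring
  · ring

/-- the mean square -/
theorem Fs_mean (hN : 0 < N) (A : ℕ → ℂ) (a s : ℤ) :
    N * ‖Cs N A s‖ ^ 2 ≤ ∑ p ∈ range N, ‖Fs N A (a + p)‖ ^ 2 := by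
  have h1 : N * ‖Cs N A s‖ ≤ ∑ p ∈ range N, ‖Fs N A (a + p)‖ := by
    have h2 := congrArg norm (Fs_coef hN A a s)
    rw [norm_mul, Complex.norm_natCast] at h2
    rw [← h2]
    refine (_root_.norm_sum_le _ _).trans (le_of_eq ?_)
    refine sum_congr rfl fun p _ => ?_
    rw [norm_mul, ze_zpow_norm, mul_one]
  have h2 := Finset.sum_mul_sq_le_sq_mul_sq (range N) (fun p : ℕ => ‖Fs N A (a + p)‖) (fun _ => 1)
  simp only [mul_one, one_pow, sum_const, card_range, nsmul_eq_mul, mul_one] at h2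
  have hNR : (0 : ℝ) < N := by exact_mod_cast hN
  have h3 : (N * ‖Cs N A s‖) ^ 2 ≤ (∑ p ∈ range N, ‖Fs N A (a + p)‖ ^ 2) * N :=
    (pow_le_pow_left₀ (by positivity) h1 2).trans h2
  have h4 : (N : ℝ) * (N * ‖Cs N A s‖ ^ 2) ≤ N * (∑ p ∈ range N, ‖Fs N A (a + p)‖ ^ 2) := by
    calc (N : ℝ) * (N * ‖Cs N A s‖ ^ 2) = (N * ‖Cs N A s‖) ^ 2 := by ring
      _ ≤ _ := h3
      _ = _ := by ring
  exact le_of_mul_le_mul_left h4 hNR

/-- periodicity -/
lemma Fs_period (hN : 0 < N) (A : ℕ → ℂ) (p : ℤ) : Fs N A (p + N) = Fs N A p := by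
  unfold Fs
  refine sum_congr rfl fun δ _ => ?_
  congr 1
  rw [add_mul, zpow_add₀ (ze_ne N), (ze_one_iff hN _).2 (Dvd.intro _ rfl), mul_one]

/-! ### the classes -/

/-- the class of `δ₀ = M j` -/
theorem class_eq {q M j : ℕ} {r e : ℕ} (hr : r.Prime) (hr2 : r ≠ 2) (hq : q = r ^ e) (he : 0 < e)
    (hM : Squarefree M) (hqM : Nat.Coprime q M) (hN : N = q * M) (hj : ¬ r ∣ j)
    (hj0 : 0 < M * j) (hjN : M * j < N) {δ : ℕ} (hδ : δ < N) :
    (N : ℤ) ∣ (δ : ℤ) ^ 2 - ((M * j : ℕ) : ℤ) ^ 2 ↔ δ = M * j ∨ δ = N - M * j := by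
  set δ₀ := M * j with hδ₀
  have hrq : r ∣ q := by rw [hq]; exact dvd_pow_self r (by omega)
  have hrM : ¬ r ∣ M := by
    intro h
    have := Nat.dvd_gcd hrq h
    rw [hqM] at this
    exact hr.one_lt.ne' (Nat.dvd_one.1 this)
  have hrδ : ¬ r ∣ δ₀ := by
    intro h
    rcases (Nat.Prime.dvd_mul hr).1 h with h1 | h1
    · exact hrM h1
    · exact hj h1
  constructor
  · intro h
    have hMN : (M : ℤ) ∣ (N : ℤ) := by rw [hN]; push_cast; exact Dvd.intro_left _ rfl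
    have hqN : (q : ℤ) ∣ (N : ℤ) := by rw [hN]; push_cast; exact Dvd.intro _ rfl
    -- modulo `M`
    have h1 : M ∣ δ := by
      have h2 : (M : ℤ) ∣ (δ : ℤ) ^ 2 := by
        have h3 : (M : ℤ) ∣ (δ₀ : ℤ) ^ 2 := by
          rw [hδ₀]; push_cast
          exact Dvd.dvd.trans (Dvd.intro _ rfl) (dvd_pow_self _ two_ne_zero)
        have h4 := dvd_add (hMN.trans h) h3
        rwa [sub_add_cancel] at h4
      have h3 : M ∣ δ ^ 2 := by exact_mod_cast h2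
      exact (hM.dvd_pow_iff_dvd two_ne_zero).1 h3
    have h2 : (q : ℤ) ∣ ((δ : ℤ) - δ₀) * ((δ : ℤ) + δ₀) := by
      have := hqN.trans h
      have e1 : (δ : ℤ) ^ 2 - (δ₀ : ℤ) ^ 2 = ((δ : ℤ) - δ₀) * ((δ : ℤ) + δ₀) := by ring
      rwa [e1] at this
    have hpr : Prime (r : ℤ) := Nat.prime_iff_prime_int.1 hr
    have h3 : ¬ ((r : ℤ) ∣ (δ : ℤ) - δ₀ ∧ (r : ℤ) ∣ (δ : ℤ) + δ₀) := by
      rintro ⟨ha, hb⟩
      have h4 := dvd_sub hb ha
      have e1 : (δ : ℤ) + δ₀ - ((δ : ℤ) - δ₀) = 2 * δ₀ := by ring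
      rw [e1] at h4
      rcases hpr.dvd_or_dvd h4 with h5 | h5
      · have h6 : r ∣ 2 := by exact_mod_cast h5
        exact hr2 ((Nat.prime_dvd_prime_iff_eq hr Nat.prime_two).1 h6)
      · exact hrδ (by exact_mod_cast h5)
    have hMq : IsCoprime (q : ℤ) (M : ℤ) := Nat.isCoprime_iff_coprime.2 hqM
    have hMδ : (M : ℤ) ∣ (δ : ℤ) := by exact_mod_cast h1
    have hMδ₀ : (M : ℤ) ∣ (δ₀ : ℤ) := by rw [hδ₀]; push_cast; exact Dvd.intro _ rfl
    have hNe : (N : ℤ) = q * M := by rw [hN]; push_cast; ring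
    by_cases h5 : (r : ℤ) ∣ (δ : ℤ) - δ₀
    · have h6 : ¬ (r : ℤ) ∣ (δ : ℤ) + δ₀ := fun h7 => h3 ⟨h5, h7⟩
      have h7 : IsCoprime (q : ℤ) ((δ : ℤ) + δ₀) := by
        rw [hq]; push_cast
        exact IsCoprime.pow_left ((hpr.coprime_iff_not_dvd).2 h6)
      have h8 : (q : ℤ) ∣ (δ : ℤ) - δ₀ := h7.dvd_of_dvd_mul_right h2
      have h9 : (N : ℤ) ∣ (δ : ℤ) - δ₀ := by
        rw [hNe]; exact hMq.mul_dvd h8 (dvd_sub hMδ hMδ₀)
      left
      obtain ⟨t, ht⟩ := h9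
      have b1 : (δ : ℤ) < N := by exact_mod_cast hδ
      have b2 : (δ₀ : ℤ) < N := by exact_mod_cast hjN
      have b3 : (0 : ℤ) ≤ δ := by positivity
      have b4 : (0 : ℤ) ≤ δ₀ := by positivity
      have b5 : (0 : ℤ) < N := by omega
      have : t = 0 := by
        by_contra ht0
        rcases lt_or_gt_of_ne ht0 with h10 | h10
        · have : t ≤ -1 := by omega
          nlinarith
        · have : 1 ≤ t := by omega
          nlinarith
      rw [this, mul_zero] at ht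
      omega
    · have h7 : IsCoprime (q : ℤ) ((δ : ℤ) - δ₀) := by
        rw [hq]; push_cast
        exact IsCoprime.pow_left ((hpr.coprime_iff_not_dvd).2 h5)
      have h8 : (q : ℤ) ∣ (δ : ℤ) + δ₀ := h7.dvd_of_dvd_mul_left h2
      have h9 : (N : ℤ) ∣ (δ : ℤ) + δ₀ := by
        rw [hNe]; exact hMq.mul_dvd h8 (dvd_add hMδ hMδ₀)
      right
      obtain ⟨t, ht⟩ := h9
      have b1 : (δ : ℤ) < N := by exact_mod_cast hδ
      have b2 : (δ₀ : ℤ) < N := by exact_mod_cast hjN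
      have b3 : (0 : ℤ) ≤ δ := by positivity
      have b4 : (0 : ℤ) < δ₀ := by exact_mod_cast hj0
      have b5 : (0 : ℤ) < N := by omega
      have : t = 1 := by
        by_contra ht0
        rcases lt_or_gt_of_ne ht0 with h10 | h10
        · have : t ≤ 0 := by omega
          nlinarith
        · have : 2 ≤ t := by omega
          nlinarith
      rw [this, mul_one] at ht
      omega
  · rintro (h | h)
    · rw [h, sub_self]; exact dvd_zero _
    · have e1 : (δ : ℤ) = N - δ₀ := by omega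
      rw [e1]
      exact ⟨(N : ℤ) - 2 * δ₀, by ring⟩

end Pool.Agent.H62.AX
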