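import Pool.Agent.H62.AX.EF
import Pool.Agent.H62.AX.Lin
import Pool.Agent.H62.VC.Coord
import Pool.Agent.H62.VC.Trace
import Pool.Graph.R_seed8.Y481.Trk

/-!
The radical of the space of highest weight vectors is the image of a smaller such space.
-/

set_option autoImplicit false

namespace Pool.Agent.H62.AX

open Matrix Finset Pool.Agent.H550R3.Jones Pool.Agent.W715.VC Pool.Agent.H62.VC

variable {N : ℕ}

/-- every vector of the radical is in the image of `F^j` -/
lemma descend {m k : ℕ} (hm : m < N) (hk : N + k = 2 * m + 2) (hk0 : 0 < k) (hkm : k ≤ m)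
    {y : I3 N → ℂ} (hy : InK m y) (h0 : ∃ z, Ft N *ᵥ z = y) :
    ∀ j, j ≤ k → ∃ z, InW (m - j) z ∧ Ft N ^ j *ᵥ z = y := by
  have hN : 0 < N := by omega
  intro j
  induction j with
  | zero =>
    intro _
    exact ⟨y, hy.1, by rw [pow_zero, one_mulVec]⟩
  | succ j ih =>
    intro hj
    obtain ⟨z, hz, hzy⟩ := ih (by omega)
    rcases Nat.eq_zero_or_pos j with hj0 | hj0
    · subst hj0
      obtain ⟨z0, hz0⟩ := h0
      refine ⟨wp (m - 1) z0, wp_InW _ _, ?_⟩
      have h1 := wp_raise (Ft_wt hN) (m - 1) z0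
      have h2 : m - 1 + 1 = m := by omega
      rw [h2, hz0, wp_of_InW hy.1] at h1
      rw [zero_add, pow_one, ← h1]
    · obtain ⟨i, rfl⟩ : ∃ i, j = i + 1 := ⟨j - 1, by omega⟩
      have h1 := Et_Ft_pow hN hz i
      rw [hzy, hy.2] at h1
      set c := br (rt N) ((i : ℤ) + 1) * br (rt N) (3 * (N : ℤ) - 3 - 2 * (m - (i + 1) : ℕ) - i) with hc
      have hc0 : c ≠ 0 := by
        refine mul_ne_zero (br_ne (by omega) (by omega)) ?_
        have g : 3 * (N : ℤ) - 3 - 2 * (m - (i + 1) : ℕ) - i = 2 * N - ((k : ℤ) - i - 1) := by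
          have : ((m - (i + 1) : ℕ) : ℤ) = m - (i + 1) := by omega
          rw [this]; omega
        rw [g]
        have g2 : br (rt N) (2 * (N : ℤ) - ((k : ℤ) - i - 1)) = -br (rt N) ((k : ℤ) - i - 1) := by
          unfold br
          have e1 := rt_2N hN (-((k : ℤ) - i - 1))
          have e2 : rt N ^ (-(2 * (N : ℤ) - ((k : ℤ) - i - 1))) = rt N ^ ((k : ℤ) - i - 1) := by
            rw [_root_.zpow_neg, sub_eq_add_neg, e1, _root_.zpow_neg, inv_inv]
          rw [e2, sub_eq_add_neg (2 * (N : ℤ)), e1]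
          ring
        rw [g2]
        exact neg_ne_zero.2 (br_ne (by omega) (by omega))
      have h2 : Ft N ^ i *ᵥ (Ft N *ᵥ (Et N *ᵥ z) + c • z) = 0 := by
        rw [Matrix.mulVec_add, Matrix.mulVec_smul, Matrix.mulVec_mulVec, ← pow_succ]
        exact h1.symm
      have hW : InW (m - (i + 1)) (Ft N *ᵥ (Et N *ᵥ z) + c • z) := by
        refine InW_add ?_ (InW_smul hz c)
        have e1 : m - (i + 1) = (m - (i + 1) - 1) + 1 := by omega
        rw [e1]
        rw [e1] at hz
        exact Ft_InW hN (Et_InW hN hz)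
      have h3 := Ft_pow_inj hN i (by omega) hW h2
      refine ⟨-(c⁻¹ • (Et N *ᵥ z)), ?_, ?_⟩
      · have e1 : m - (i + 1) = (m - (i + 1 + 1)) + 1 := by omega
        rw [e1] at hz
        have := InW_smul (InW_smul (Et_InW hN hz) c⁻¹) (-1)
        rwa [neg_one_smul] at this
      · have h4 : Ft N *ᵥ (-(c⁻¹ • (Et N *ᵥ z))) = z := by
          have e1 : z = -(c⁻¹ • (Ft N *ᵥ (Et N *ᵥ z))) := by
            have e2 : c • z = -(Ft N *ᵥ (Et N *ᵥ z)) := by
              rw [← add_eq_zero_iff_eq_neg, add_comm]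
              exact h3
            calc z = c⁻¹ • (c • z) := by rw [smul_smul, inv_mul_cancel₀ hc0, one_smul]
              _ = _ := by rw [e2, smul_neg]
          rw [Matrix.mulVec_neg, Matrix.mulVec_smul, ← e1]
        rw [pow_succ, ← Matrix.mulVec_mulVec, h4]
        exact hzy

/-- every vector of the radical is in the image of `K_{m - k}` under `F^k` -/
theorem radical {m k : ℕ} (hm : m < N) (hk : N + k = 2 * m + 2) (hk0 : 0 < k) (hkm : k ≤ m)
    {y : I3 N → ℂ} (hy : InK m y) (h0 : ∃ z, Ft N *ᵥ z = y) :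
    ∃ z, InK (m - k) z ∧ Ft N ^ k *ᵥ z = y := by
  have hN : 0 < N := by omega
  obtain ⟨z, hz, hzy⟩ := descend hm hk hk0 hkm hy h0 k le_rfl
  refine ⟨z, ⟨hz, ?_⟩, hzy⟩
  rcases Nat.eq_zero_or_pos (m - k) with h | h
  · have := lower_zero (Et_wt hN) z
    rw [h] at hz
    rwa [wp_of_InW hz] at this
  · obtain ⟨i, rfl⟩ : ∃ i, k = i + 1 := ⟨k - 1, by omega⟩
    have h1 := Et_Ft_pow hN hz i
    rw [hzy, hy.2] at h1
    have g : 3 * (N : ℤ) - 3 - 2 * (m - (i + 1) : ℕ) - i = 2 * N := by
      have : ((m - (i + 1) : ℕ) : ℤ) = m - (i + 1) := by omega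
      rw [this]; omega
    have g2 : br (rt N) (2 * (N : ℤ)) = 0 := by
      unfold br
      have e1 := rt_2N hN 0
      rw [add_zero, zpow_zero] at e1
      rw [_root_.zpow_neg, e1]; simp
    rw [g, g2, mul_zero, zero_smul, add_zero] at h1
    have e1 : m - (i + 1) = (m - (i + 1) - 1) + 1 := by omega
    rw [e1] at hz
    exact Ft_pow_inj hN (i + 1) (by omega) (Et_InW hN hz) h1.symm

/-- a vector of `K_m` with vanishing coordinates is orthogonal to `K_m` -/
lemma orth_of_Yc {m K : ℕ} (hm : m < N) (hK : N + K = 2 * m + 1) {y : I3 N → ℂ} (hy : InK m y)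
    (h0 : ∀ d, d ≤ K → Yc N m y d = 0) : ∃ z, Ft N *ᵥ z = y := by
  have hN : 0 < N := by omega
  refine range_Ft hN hy.1 fun x hx => ?_
  obtain ⟨c, hc⟩ := semi hm (by omega : N ≤ 2 * m + 1)
  rw [hc x y hx hy, sum_eq_zero, mul_zero]
  intro i hi
  rw [mem_range] at hi
  by_cases h : i < N - 1 - m
  · unfold DD
    rw [if_pos h]
    simp
  · have h1 := h0 (m - i) (by omega)
    unfold Yc at h1
    have h2 : (-(rt N ^ m)) ^ (m - i) ≠ 0 :=
      pow_ne_zero _ (neg_ne_zero.2 (pow_ne_zero _ (rt_ne N)))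
    have h3 := (mul_eq_zero.1 h1).resolve_left h2
    have h4 : m - (m - i) = i := by omega
    rw [h4] at h3
    rw [h3]; simp

/-! ### The spaces -/

/-- the space of highest weight vectors -/
def VK (N m : ℕ) : Submodule ℂ (I3 N → ℂ) where
  carrier := {x | InK m x}
  add_mem' := fun hx hy => InK_add hx hy
  zero_mem' := InK_zero m
  smul_mem' := fun r _ hx => InK_smul hx r

lemma mem_VK {m : ℕ} {x : I3 N → ℂ} : x ∈ VK N m ↔ InK m x := Iff.rfl

/-- the basis -/
noncomputable def yb {m : ℕ} (hm : m < N) : Module.Basis (Fin (m + 1)) ℂ (VK N m) :=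
  Module.Basis.mk (v := fun j => (⟨yv N m j, yv_InK hm j⟩ : VK N m)) (by
    rw [Fintype.linearIndependent_iff]
    intro g hg i
    have h1 := congrArg (fun x : VK N m => tt N m x.1 i) hg
    have h2 : (∑ j : Fin (m + 1), g j • (⟨yv N m j, yv_InK hm j⟩ : VK N m) : VK N m).1 =
        ∑ a ∈ range (m + 1), (if h : a < m + 1 then g ⟨a, h⟩ else 0) • yv N m a := by
      rw [Submodule.coe_sum, Finset.sum_range]
      refine sum_congr rfl fun j _ => ?_
      rw [dif_pos j.2]
      rfl
    simp only [h2, tt_sum, tt_smul] at h1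
    rw [sum_eq_single (i : ℕ)] at h1
    · rw [dif_pos i.2, tt_yv hm (by omega), if_pos rfl, mul_one] at h1
      rw [h1]
      simp [tt, hat_zero]
    · intro a ha hai
      rw [mem_range] at ha
      rw [tt_yv hm (by omega), if_neg (Ne.symm hai), mul_zero]
    · intro h; exact absurd (mem_range.2 (by omega)) h) (by
    rintro ⟨x, hx⟩ -
    have h1 := expand hm hx
    have h2 : (⟨x, hx⟩ : VK N m) = ∑ j : Fin (m + 1), tt N m x j •
        (⟨yv N m j, yv_InK hm j⟩ : VK N m) := by
      apply Subtype.ext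
      rw [Submodule.coe_sum]
      refine h1.trans ?_
      rw [Finset.sum_range]
      rfl
    rw [h2]
    exact Submodule.sum_mem _ fun j _ => Submodule.smul_mem _ _ (Submodule.subset_span ⟨j, rfl⟩))

lemma yb_apply {m : ℕ} (hm : m < N) (j : Fin (m + 1)) : (yb hm j : I3 N → ℂ) = yv N m j := by
  simp [yb]

lemma finrank_VK {m : ℕ} (hm : m < N) : Module.finrank ℂ (VK N m) = m + 1 := by
  rw [Module.finrank_eq_card_basis (yb hm), Fintype.card_fin]

/-- a good matrix on the highest weight vectors -/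
noncomputable def TK {m : ℕ} {A : M3 N} (hA : Good A) : VK N m →ₗ[ℂ] VK N m :=
  (Matrix.mulVecLin A).restrict fun _ hx => hA.InK hx

lemma TK_apply {m : ℕ} {A : M3 N} (hA : Good A) (x : VK N m) :
    (TK hA x : I3 N → ℂ) = A *ᵥ x.1 := rfl

/-- the trace on the highest weight vectors -/
noncomputable def trK (N m : ℕ) (w : List (ℕ × Bool)) : ℂ :=
  LinearMap.trace ℂ (VK N m) (TK (good_rep3 w))

/-- the trace formula -/
theorem trace_rep3 (hN : 1 ≤ N) (w : List (ℕ × Bool)) : (rep3 N w).trace =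
    N * (trK N (N - 1) w + 2 * ∑ m ∈ range (N - 1), trK N m w) := by
  set B : ∀ m : ℕ, Matrix (Fin (m + 1)) (Fin (m + 1)) ℂ := fun m =>
    if hm : m < N then LinearMap.toMatrix (yb hm) (yb hm) (TK (good_rep3 w)) else 0 with hB
  have h1 : ∀ m, m < N → (B m).trace = trK N m w := by
    intro m hm
    rw [hB]
    dsimp only
    rw [dif_pos hm, trK, LinearMap.trace_eq_matrix_trace ℂ (yb hm)]
  rw [Pool.Agent.Y481.trk N w B hN ?_]
  · rw [h1 (N - 1) (by omega)]
    congr 3
    refine sum_congr rfl fun m hm => ?_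
    rw [mem_range] at hm
    exact h1 m (by omega)
  · intro m hm j
    have h3 : TK (good_rep3 w) (yb hm j) = ∑ i, B m i j • yb hm i := by
      rw [hB]
      dsimp only
      rw [dif_pos hm]
      have := (yb hm).sum_repr (TK (good_rep3 w) (yb hm j))
      conv_lhs => rw [← this]
      refine sum_congr rfl fun i _ => ?_
      rw [LinearMap.toMatrix_apply]
    have h4 : (TK (good_rep3 w) (yb hm j) : I3 N → ℂ) = ((∑ i, B m i j • yb hm i : VK N m) :
        I3 N → ℂ) := by rw [h3]
    rw [TK_apply, yb_apply] at h4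
    rw [h4, Submodule.coe_sum]
    refine sum_congr rfl fun i _ => ?_
    rw [Submodule.coe_smul, yb_apply]

end Pool.Agent.H62.AX
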