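import Pool.Agent.H62.AX.Coef
import Pool.Graph.R_seed8.Y68.V481.FT
import Pool.Graph.R_seed8.Y68.V481.TRP

/-!
The unitary traces and the full twists.
-/

set_option autoImplicit false

namespace Pool.Agent.H62.AX

open Matrix Finset Pool.Agent.H550R3.Jones Pool.Agent.W715.VC Pool.Agent.H62.VC

variable {N : ℕ}

/-- the trace is bounded by the dimension if all eigenvalues have absolute value one -/
lemma trace_le {V : Type} [AddCommGroup V] [Module ℂ V] [FiniteDimensional ℂ V] (T : V →ₗ[ℂ] V)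
    (h : ∀ (μ : ℂ) (x : V), x ≠ 0 → T x = μ • x → ‖μ‖ ≤ 1) :
    ‖LinearMap.trace ℂ V T‖ ≤ Module.finrank ℂ V := by
  classical
  set b := Module.finBasis ℂ V
  set B := LinearMap.toMatrix b b T with hB
  rw [LinearMap.trace_eq_matrix_trace ℂ b T, Matrix.trace_eq_sum_roots_charpoly]
  have h1 : ∀ μ ∈ B.charpoly.roots, ‖μ‖ ≤ 1 := by
    intro μ hμ
    have h2 : T.charpoly.IsRoot μ := by
      rw [← LinearMap.charpoly_toMatrix T b]
      exact Polynomial.isRoot_of_mem_roots hμ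
    rw [← Module.End.hasEigenvalue_iff_isRoot_charpoly] at h2
    obtain ⟨x, hx⟩ := h2.exists_hasEigenvector
    exact h μ x hx.2 (Module.End.mem_eigenspace_iff.1 hx.1)
  have h3 : B.charpoly.roots.card = Module.finrank ℂ V := by
    have h4 := IsAlgClosed.splits B.charpoly
    rw [Polynomial.splits_iff_card_roots] at h4
    rw [h4, Matrix.charpoly_natDegree_eq_dim, Fintype.card_fin]
  have h5 : ∀ s : Multiset ℂ, (∀ μ ∈ s, ‖μ‖ ≤ 1) → ‖s.sum‖ ≤ s.card := by
    intro s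
    induction s using Multiset.induction_on with
    | empty => simp
    | cons a s ih =>
      intro hs
      rw [Multiset.sum_cons, Multiset.card_cons]
      have h6 := hs a (Multiset.mem_cons_self a s)
      have h7 := ih fun μ hμ => hs μ (Multiset.mem_cons_of_mem hμ)
      push_cast
      exact (norm_add_le _ _).trans (by linarith)
  have h6 := h5 _ h1
  rw [h3] at h6
  exact h6

/-- the unitary case -/
theorem trK_unit {m : ℕ} (h2 : 2 * m + 2 ≤ N) (w : List (ℕ × Bool)) :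
    ‖trK N m w‖ ≤ m + 1 := by
  have h1 := trace_le (TK (m := m) (good_rep3 (N := N) w)) (fun μ x hx hT => by
    have hx' : x.1 ≠ 0 := fun h => hx (Subtype.ext h)
    have h3 := QK_rep3 h2 w x.2
    have h4 : rep3 N w *ᵥ x.1 = μ • x.1 := congrArg Subtype.val hT
    rw [h4, QK_smul] at h3
    have h5 := QK_pos (by omega) x.2 hx'
    have h6 : ‖μ‖ ^ 2 = 1 := by
      have h7 : (‖μ‖ ^ 2 - 1) * QK N m x.1 = 0 := by linear_combination h3
      have := (mul_eq_zero.1 h7).resolve_right h5.ne'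
      linarith
    nlinarith [norm_nonneg μ])
  rw [finrank_VK (by omega)] at h1
  unfold trK
  exact_mod_cast h1

/-! ### full twists -/

open Pool.Agent.Y481 (ftw ftwi fts)

/-- the scalar of the full twist -/
lemma exists_tw : ∃ u : ℕ → ℂ, (∀ N, ‖u N‖ = 1) ∧ ∀ N : ℕ, 2 ≤ N → ∀ m < N, ∀ x : I3 N → ℂ,
    InK m x → rep3 N ftw *ᵥ x =
      (u N * Complex.exp (2 * Real.pi * Complex.I * ((N : ℂ) - 1 - m) ^ 2 / N)) • x := by
  obtain ⟨u, hu, h⟩ := Pool.Agent.Y68.V481.FT.t_FT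
  refine ⟨u, hu, fun N hN m hm x hx => ?_⟩
  conv_lhs => rw [expand hm hx]
  conv_rhs => rw [expand hm hx]
  rw [Matrix.mulVec_sum, smul_sum]
  refine sum_congr rfl fun a ha => ?_
  rw [mem_range] at ha
  rw [Matrix.mulVec_smul, h N hN m hm ⟨a, ha⟩, smul_comm]

/-- `exp (2 π i / N)` -/
noncomputable def ze (N : ℕ) : ℂ := Complex.exp (2 * Real.pi * Complex.I / N)

lemma ze_ne (N : ℕ) : ze N ≠ 0 := Complex.exp_ne_zero _

lemma ze_norm (N : ℕ) : ‖ze N‖ = 1 := by
  unfold ze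
  have : (2 * Real.pi * Complex.I / N : ℂ) = ((2 * Real.pi / N : ℝ) : ℂ) * Complex.I := by
    push_cast; ring
  rw [this, Complex.norm_exp_ofReal_mul_I]

lemma ze_zpow_norm (N : ℕ) (a : ℤ) : ‖ze N ^ a‖ = 1 := by
  rw [norm_zpow, ze_norm, _root_.one_zpow]

lemma ze_pow {N m : ℕ} (hm : m < N) :
    Complex.exp (2 * Real.pi * Complex.I * ((N : ℂ) - 1 - m) ^ 2 / N) =
      ze N ^ (((N - 1 - m : ℕ) : ℤ) ^ 2) := by
  unfold ze
  rw [← Complex.exp_int_mul]
  congr 1
  have : ((N - 1 - m : ℕ) : ℂ) = (N : ℂ) - 1 - m := by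
    rw [Nat.cast_sub (by omega), Nat.cast_sub (by omega)]; simp
  push_cast
  rw [this]
  ring

/-- the traces of the twisted words -/
theorem exists_twist : ∃ u : ℕ → ℂ, (∀ N, ‖u N‖ = 1) ∧ ∀ (N : ℕ), 2 ≤ N →
    ∀ (w : List (ℕ × Bool)) (p : ℤ), (rep3 N (w ++ fts p)).trace = N * u N ^ p *
      ∑ δ ∈ range N, (if δ = 0 then 1 else 2) * trK N (N - 1 - δ) w * ze N ^ (p * (δ : ℤ) ^ 2) := by
  obtain ⟨u, hu, h⟩ := exists_tw
  refine ⟨u, hu, fun N hN w p => ?_⟩
  have hu0 : u N ≠ 0 := fun h0 => by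
    have := hu N
    rw [h0, norm_zero] at this
    norm_num at this
  have key : ∀ m, m < N → trK N m (w ++ fts p) =
      u N ^ p * (trK N m w * ze N ^ (p * ((N - 1 - m : ℕ) : ℤ) ^ 2)) := by
    intro m hm
    have h1 : TK (m := m) (good_rep3 (N := N) (w ++ fts p)) =
        (u N * ze N ^ (((N - 1 - m : ℕ) : ℤ) ^ 2)) ^ p • TK (m := m) (good_rep3 (N := N) w) := by
      apply LinearMap.ext
      intro x
      apply Subtype.ext
      have h2 := h N hN m hm x.1 x.2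
      rw [ze_pow hm] at h2
      have h3 := Pool.Agent.Y68.V481.TRP.fts_mulVec (mul_ne_zero hu0 (zpow_ne_zero _ (ze_ne N))) h2 p
      change rep3 N (w ++ fts p) *ᵥ x.1 = _ • (rep3 N w *ᵥ x.1)
      rw [rep3_append, ← Matrix.mulVec_mulVec, h3, Matrix.mulVec_smul]
    unfold trK
    rw [h1, map_smul, smul_eq_mul, mul_zpow, ← _root_.zpow_mul, mul_comm p]
    ring
  rw [trace_rep3 (by omega), key _ (by omega), mul_assoc]
  congr 1
  obtain ⟨M, rfl⟩ : ∃ M, N = M + 1 := ⟨N - 1, by omega⟩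
  rw [Finset.sum_range_succ', ← Finset.sum_range_reflect]
  have e1 : M + 1 - 1 = M := by omega
  simp only [e1]
  have e2 : ∀ m ∈ range M, trK (M + 1) (M - 1 - m) (w ++ fts p) = u (M + 1) ^ p *
      (trK (M + 1) (M - (m + 1)) w * ze (M + 1) ^ (p * ((m + 1 : ℕ) : ℤ) ^ 2)) := by
    intro m hm
    rw [mem_range] at hm
    rw [key (M - 1 - m) (by omega)]
    have g1 : M - 1 - m = M - (m + 1) := by omega
    have g2 : M + 1 - 1 - (M - 1 - m) = m + 1 := by omega
    rw [g2, g1]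
  rw [sum_congr rfl e2, ← mul_sum, mul_add, mul_sum, mul_sum, mul_sum]
  have e3 : ∀ x ∈ range M, (u (M + 1) ^ p) * ((if x + 1 = 0 then (1 : ℂ) else 2) *
      trK (M + 1) (M - (x + 1)) w * ze (M + 1) ^ (p * ((x + 1 : ℕ) : ℤ) ^ 2)) =
      2 * (u (M + 1) ^ p * (trK (M + 1) (M - (x + 1)) w *
        ze (M + 1) ^ (p * ((x + 1 : ℕ) : ℤ) ^ 2))) := by
    intro x _
    rw [if_neg (by omega)]; ring
  rw [sum_congr rfl e3, ← mul_sum, ← mul_sum]
  simp only [if_true, Nat.sub_zero, Nat.cast_zero, Nat.sub_self]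
  ring

end Pool.Agent.H62.AX
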